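import Mathlib

/-! Summing out the letters of a random word, one at a time. -/

set_option autoImplicit false

namespace Pool.Agent.R457.PL

open Finset

/-- flip the coordinate `v` -/
def flip {V : Type*} [DecidableEq V] (v : V) (X : V → Bool) : V → Bool :=
  Function.update X v (!(X v))

section flip
variable {V : Type*} [DecidableEq V]

theorem flip_flip (v : V) (X : V → Bool) : flip v (flip v X) = X := by
  funext u
  unfold flip
  by_cases h : u = v
  · subst h; simp
  · simp [h]

@[simp] theorem flip_same (v : V) (X : V → Bool) : flip v X v = !(X v) := by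
  simp [flip]

theorem flip_ne {v u : V} (h : u ≠ v) (X : V → Bool) : flip v X u = X u := by
  simp [flip, h]

theorem sum_flip [Fintype V] (v : V) (G : (V → Bool) → ℝ) :
    ∑ X : V → Bool, G (flip v X) = ∑ X : V → Bool, G X :=
  Fintype.sum_equiv ⟨flip v, flip v, flip_flip v, flip_flip v⟩ _ _ fun _ => rfl

/-- Elimination: the factor `F i` has the own coordinate `own i`, its average over this coordinate
is the constant `f i`, and it does not depend on the own coordinates of the other factors of rank at
least the rank of `i`. -/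
theorem elim [Fintype V] {ι : Type*} [DecidableEq ι] (S : Finset ι) (rank : ι → ℕ) (own : ι → V)
    (F : ι → (V → Bool) → ℝ) (f : ι → ℝ)
    (h1 : ∀ i ∈ S, ∀ j ∈ S, i ≠ j → rank i ≤ rank j → ∀ X, F i (flip (own j) X) = F i X)
    (h2 : ∀ i ∈ S, ∀ X, F i X + F i (flip (own i) X) = 2 * f i) :
    ∑ X : V → Bool, ∏ i ∈ S, F i X = 2 ^ Fintype.card V * ∏ i ∈ S, f i := by
  induction hn : S.card generalizing S with
  | zero =>
    rw [card_eq_zero] at hn
    subst hn
    simp
  | succ n ih =>
    obtain ⟨u, hu, hmax⟩ := exists_max_image S rank (card_pos.1 (by omega))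
    have hS : S = insert u (S.erase u) := (insert_erase hu).symm
    have hinv : ∀ X, ∏ i ∈ S.erase u, F i (flip (own u) X) = ∏ i ∈ S.erase u, F i X := by
      intro X
      refine prod_congr rfl fun i hi => ?_
      exact h1 i (mem_of_mem_erase hi) u hu (ne_of_mem_erase hi) (hmax i (mem_of_mem_erase hi)) X
    have hprod : ∀ X, ∏ i ∈ S, F i X = F u X * ∏ i ∈ S.erase u, F i X :=
      fun X => (mul_prod_erase S (fun i => F i X) hu).symm
    have ih' := ih (S.erase u)
      (fun i hi j hj => h1 i (mem_of_mem_erase hi) j (mem_of_mem_erase hj))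
      (fun i hi => h2 i (mem_of_mem_erase hi)) (by rw [card_erase_of_mem hu, hn]; rfl)
    have key : 2 * ∑ X : V → Bool, ∏ i ∈ S, F i X =
        2 * f u * ∑ X : V → Bool, ∏ i ∈ S.erase u, F i X := by
      calc 2 * ∑ X : V → Bool, ∏ i ∈ S, F i X
          = ∑ X : V → Bool, ∏ i ∈ S, F i X + ∑ X : V → Bool, ∏ i ∈ S, F i (flip (own u) X) := by
            rw [sum_flip (own u) (fun X => ∏ i ∈ S, F i X)]; ring
        _ = ∑ X : V → Bool, 2 * f u * ∏ i ∈ S.erase u, F i X := by
            rw [← sum_add_distrib]
            refine sum_congr rfl fun X _ => ?_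
            rw [hprod, hprod, hinv, ← h2 u hu X]
            ring
        _ = _ := by rw [mul_sum]
    rw [ih'] at key
    rw [← mul_prod_erase S f hu]
    linarith
end flip

section word
variable {N M : ℕ}

open Classical in
/-- the first used position `≥ i`, or `i` if there is none -/
noncomputable def nxt (σ : Fin M → Fin N) (i : Fin N) : Fin N :=
  if h : (univ.filter fun k => i ≤ σ k).Nonempty then σ ((univ.filter fun k => i ≤ σ k).min' h)
  else i

theorem nxt_spec (σ : Fin M → Fin N) (i : Fin N) :
    (nxt σ i = i ∧ ∀ k, σ k < i) ∨ ∃ k, nxt σ i = σ k ∧ i ≤ σ k ∧ ∀ j < k, σ j < i := by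
  classical
  unfold nxt
  split_ifs with h
  · right
    refine ⟨_, rfl, ?_, ?_⟩
    · exact (mem_filter.1 (min'_mem _ h)).2
    · intro j hj
      by_contra hcon
      push Not at hcon
      exact absurd hj (not_lt.2 (min'_le _ j (mem_filter.2 ⟨mem_univ _, hcon⟩)))
  · left
    refine ⟨rfl, fun k => ?_⟩
    by_contra hcon
    push Not at hcon
    exact h ⟨k, mem_filter.2 ⟨mem_univ _, hcon⟩⟩

theorem nxt_used {σ : Fin M → Fin N} (hσ : StrictMono σ) (k : Fin M) : nxt σ (σ k) = σ k := by
  rcases nxt_spec σ (σ k) with ⟨h, -⟩ | ⟨k', h1, h2, h3⟩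
  · exact h
  · rw [h1]
    have h4 : k ≤ k' := hσ.le_iff_le.1 h2
    rcases h4.lt_or_eq with h5 | h5
    · exact absurd (h3 k h5) (lt_irrefl _)
    · rw [h5]

/-- if the next used position is not `i`, it is a used one -/
theorem nxt_mem {σ : Fin M → Fin N} {i : Fin N} (h : nxt σ i ≠ i) :
    ∃ k, nxt σ i = σ k ∧ i < σ k ∧ ∀ j < k, σ j < i := by
  rcases nxt_spec σ i with ⟨h1, -⟩ | ⟨k, h1, h2, h3⟩
  · exact absurd h1 h
  · refine ⟨k, h1, lt_of_le_of_ne h2 ?_, h3⟩
    intro h4
    exact h (by rw [h1]; exact h4.symm)

/-- the tilt at position `v` -/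
noncomputable def psi (ε : ℝ) (σ : Fin M → Fin N) (v : Fin N) (X : Fin N → Bool) : ℝ :=
  if nxt σ v = v then 1 else if X v = X (nxt σ v) then 1 - ε else 1 + ε

/-- the weight of a pair of embeddings -/
noncomputable def cw (ε : ℝ) (σ τ : Fin M → Fin N) (k : Fin M) : ℝ :=
  if τ k = σ k then 1 else if nxt σ (τ k) = σ k then (1 - ε) / 2 else 1 / 2

open Classical in
theorem sum_word (ε : ℝ) {σ τ : Fin M → Fin N} (hσ : StrictMono σ) (hτ : StrictMono τ) :
    ∑ X : Fin N → Bool, (if ∀ k, X (τ k) = X (σ k) then ∏ v, psi ε σ v X else 0) =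
      2 ^ N * ∏ k, cw ε σ τ k := by
  let H : Fin M → (Fin N → Bool) → ℝ := fun k X =>
    if τ k = σ k then 1 else if τ k ∈ Set.range σ then (if X (σ k) = X (τ k) then 1 else 0) else
      (if nxt σ (τ k) = τ k then 1 else if X (σ k) = X (nxt σ (τ k)) then 1 - ε else 1 + ε)
  let Cc : Fin M → (Fin N → Bool) → ℝ := fun k X =>
    if τ k ∈ Set.range σ then 1 else if X (τ k) = X (σ k) then 1 else 0
  let Kk : Fin N → (Fin N → Bool) → ℝ := fun v X =>
    if v ∈ Set.range σ ∨ v ∈ Set.range τ then 1 else psi ε σ v X
  let F : (Fin M ⊕ Fin M) ⊕ Fin N → (Fin N → Bool) → ℝ := fun i =>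
    Sum.elim (Sum.elim H Cc) Kk i
  let f : (Fin M ⊕ Fin M) ⊕ Fin N → ℝ := fun i =>
    Sum.elim (Sum.elim (fun k => if τ k = σ k then 1 else if τ k ∈ Set.range σ then 1 / 2 else
      if nxt σ (τ k) = σ k then 1 - ε else 1) (fun k => if τ k ∈ Set.range σ then 1 else 1 / 2))
      (fun _ => 1) i
  let own : (Fin M ⊕ Fin M) ⊕ Fin N → Fin N := fun i => Sum.elim (Sum.elim σ τ) id i
  let rk : Fin M → ℕ := fun k => if τ k ≤ σ k then (σ k : ℕ) + 1 else 2 * N + 1 - (σ k : ℕ)
  let rank : (Fin M ⊕ Fin M) ⊕ Fin N → ℕ := fun i =>
    Sum.elim (Sum.elim rk (fun k => if τ k ∈ Set.range σ then 0 else 3 * N + 1))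
      (fun v => if v ∈ Set.range σ ∨ v ∈ Set.range τ then 0 else 3 * N + 1) i
  have hrk1 : ∀ k, 0 < rk k := by
    intro k
    simp only [rk]
    have := (σ k).2
    split_ifs <;> omega
  have hrk2 : ∀ k, rk k < 3 * N + 1 := by
    intro k
    simp only [rk]
    have := (σ k).2
    split_ifs <;> omega
  -- the rank decreases along the arrows
  have hrk3 : ∀ k k', nxt σ (τ k) = σ k' → k' ≠ k → rk k' < rk k := by
    intro k k' h1 h2
    have hspec : τ k ≤ σ k' ∧ ∀ j < k', σ j < τ k := by
      rcases nxt_spec σ (τ k) with ⟨h3, h4⟩ | ⟨k'', h3, h4, h5⟩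
      · rw [h3] at h1
        exact absurd (h4 k') (by rw [h1]; exact lt_irrefl _)
      · have : k'' = k' := hσ.injective (by rw [← h3, h1])
        subst this
        exact ⟨h4, h5⟩
    obtain ⟨h3, h4⟩ := hspec
    have b1 := (σ k).2
    have b2 := (σ k').2
    by_cases hk : τ k ≤ σ k
    · -- `k' < k`
      have h5 : k' ≤ k := by
        by_contra hcon
        push Not at hcon
        exact absurd hk (not_le.2 (h4 k hcon))
      have h6 : k' < k := lt_of_le_of_ne h5 h2
      have h7 : τ k' ≤ σ k' := (hτ h6).le.trans h3
      simp only [rk, if_pos hk, if_pos h7]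
      have := hσ h6
      have : (σ k' : ℕ) < σ k := this
      omega
    · have h5 : (σ k : ℕ) < σ k' := by
        have : σ k < σ k' := lt_of_lt_of_le (not_le.1 hk) h3
        exact this
      simp only [rk, if_neg hk]
      split_ifs <;> omega
  have hnr : ∀ v, nxt σ v = v ∨ nxt σ v ∈ Set.range σ := by
    intro v
    by_cases h : nxt σ v = v
    · exact Or.inl h
    · obtain ⟨k, hk, -⟩ := nxt_mem h
      exact Or.inr ⟨k, hk.symm⟩
  have h1 : ∀ i ∈ (univ : Finset ((Fin M ⊕ Fin M) ⊕ Fin N)), ∀ j ∈ (univ : Finset _), i ≠ j →
      rank i ≤ rank j → ∀ X, F i (flip (own j) X) = F i X := by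
    rintro ((k | k) | v) - ((k' | k') | w) - hne hr X
    · -- letter, letter
      have hkk : k ≠ k' := fun h => hne (by rw [h])
      have hσk : σ k ≠ σ k' := fun h => hkk (hσ.injective h)
      have hnk : nxt σ (τ k) ≠ σ k' := fun h =>
        absurd (hrk3 k k' h hkk.symm) (not_lt.2 hr)
      change H k (flip (σ k') X) = H k X
      simp only [H]
      split_ifs with a1 a2 a3 a4 a5 a6 a7 a8 a9 a10 a11 a12 <;> try rfl
      all_goals
        first
        | (exfalso
           rw [flip_ne hσk] at *
           first
           | (obtain ⟨l, hl⟩ := a2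
              have h5 : τ k ≠ σ k' := by
                intro h6
                apply hnk
                rw [h6, nxt_used hσ]
              rw [flip_ne h5] at *
              contradiction)
           | (rw [flip_ne hnk] at *
              contradiction))
    · -- letter, constraint
      change H k (flip (τ k') X) = H k X
      by_cases hk' : τ k' ∈ Set.range σ
      · exfalso
        have : rank (Sum.inl (Sum.inr k')) = 0 := by simp only [rank, Sum.elim_inl, Sum.elim_inr, if_pos hk']
        rw [this] at hr
        have h5 := hrk1 k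
        change rk k ≤ 0 at hr
        omega
      · have e1 : σ k ≠ τ k' := fun h => hk' ⟨k, h⟩
        by_cases hs : τ k = σ k
        · simp only [H, if_pos hs]
        simp only [H, flip_ne e1, if_neg hs]
        by_cases hk : τ k ∈ Set.range σ
        · have e2 : τ k ≠ τ k' := fun h => hk' (h ▸ hk)
          simp only [if_pos hk, flip_ne e2]
        · by_cases h6 : nxt σ (τ k) = τ k
          · simp only [if_neg hk, if_pos h6]
          · have e3 : nxt σ (τ k) ≠ τ k' := by
              intro h7
              obtain h8 | h8 := hnr (τ k)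
              · exact h6 h8
              · exact hk' (h7 ▸ h8)
            simp only [if_neg hk, flip_ne e3]
    · -- letter, position
      change H k (flip w X) = H k X
      by_cases hw : w ∈ Set.range σ ∨ w ∈ Set.range τ
      · exfalso
        have : rank (Sum.inr w) = 0 := by simp only [rank, Sum.elim_inr, if_pos hw]
        rw [this] at hr
        have h5 := hrk1 k
        change rk k ≤ 0 at hr
        omega
      · push Not at hw
        have e1 : σ k ≠ w := fun h => hw.1 ⟨k, h⟩
        have e2 : τ k ≠ w := fun h => hw.2 ⟨k, h⟩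
        simp only [H, flip_ne e1, flip_ne e2]
        by_cases h6 : nxt σ (τ k) = τ k
        · simp only [if_pos h6]
        · have e3 : nxt σ (τ k) ≠ w := by
            intro h7
            obtain h8 | h8 := hnr (τ k)
            · exact h6 h8
            · exact hw.1 (h7 ▸ h8)
          simp only [flip_ne e3]
    · -- constraint, letter
      change Cc k (flip (σ k') X) = Cc k X
      by_cases hk : τ k ∈ Set.range σ
      · simp only [Cc, if_pos hk]
      · exfalso
        have : rank (Sum.inl (Sum.inr k)) = 3 * N + 1 := by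
          simp only [rank, Sum.elim_inl, Sum.elim_inr, if_neg hk]
        rw [this] at hr
        have h5 := hrk2 k'
        change 3 * N + 1 ≤ rk k' at hr
        omega
    · -- constraint, constraint
      have hkk : k ≠ k' := fun h => hne (by rw [h])
      change Cc k (flip (τ k') X) = Cc k X
      by_cases hk : τ k ∈ Set.range σ
      · simp only [Cc, if_pos hk]
      · by_cases hk' : τ k' ∈ Set.range σ
        · exfalso
          have e1 : rank (Sum.inl (Sum.inr k)) = 3 * N + 1 := by
            simp only [rank, Sum.elim_inl, Sum.elim_inr, if_neg hk]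
          have e2 : rank (Sum.inl (Sum.inr k')) = 0 := by
            simp only [rank, Sum.elim_inl, Sum.elim_inr, if_pos hk']
          rw [e1, e2] at hr
          omega
        · have e1 : τ k ≠ τ k' := fun h => hkk (hτ.injective h)
          have e2 : σ k ≠ τ k' := fun h => hk' ⟨k, h⟩
          simp only [Cc, if_neg hk, flip_ne e1, flip_ne e2]
    · -- constraint, position
      change Cc k (flip w X) = Cc k X
      by_cases hk : τ k ∈ Set.range σ
      · simp only [Cc, if_pos hk]
      · by_cases hw : w ∈ Set.range σ ∨ w ∈ Set.range τ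
        · exfalso
          have e1 : rank (Sum.inl (Sum.inr k)) = 3 * N + 1 := by
            simp only [rank, Sum.elim_inl, Sum.elim_inr, if_neg hk]
          have e2 : rank (Sum.inr w) = 0 := by
            simp only [rank, Sum.elim_inr, if_pos hw]
          rw [e1, e2] at hr
          omega
        · push Not at hw
          have e1 : σ k ≠ w := fun h => hw.1 ⟨k, h⟩
          have e2 : τ k ≠ w := fun h => hw.2 ⟨k, h⟩
          simp only [Cc, if_neg hk, flip_ne e1, flip_ne e2]
    · -- position, letter
      change Kk v (flip (σ k') X) = Kk v X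
      by_cases hv : v ∈ Set.range σ ∨ v ∈ Set.range τ
      · simp only [Kk, if_pos hv]
      · exfalso
        have : rank (Sum.inr v) = 3 * N + 1 := by
          simp only [rank, Sum.elim_inr, if_neg hv]
        rw [this] at hr
        have h5 := hrk2 k'
        change 3 * N + 1 ≤ rk k' at hr
        omega
    · -- position, constraint
      change Kk v (flip (τ k') X) = Kk v X
      by_cases hv : v ∈ Set.range σ ∨ v ∈ Set.range τ
      · simp only [Kk, if_pos hv]
      · by_cases hk' : τ k' ∈ Set.range σ
        · exfalso
          have e1 : rank (Sum.inr v) = 3 * N + 1 := by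
            simp only [rank, Sum.elim_inr, if_neg hv]
          have e2 : rank (Sum.inl (Sum.inr k')) = 0 := by
            simp only [rank, Sum.elim_inl, Sum.elim_inr, if_pos hk']
          rw [e1, e2] at hr
          omega
        · have hv' := hv
          push Not at hv'
          have e1 : v ≠ τ k' := fun h => hv'.2 ⟨k', h.symm⟩
          simp only [Kk, if_neg hv, psi]
          by_cases h6 : nxt σ v = v
          · simp only [if_pos h6]
          · have e3 : nxt σ v ≠ τ k' := by
              intro h7
              obtain h8 | h8 := hnr v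
              · exact h6 h8
              · exact hk' (h7 ▸ h8)
            simp only [flip_ne e1, flip_ne e3]
    · -- position, position
      change Kk v (flip w X) = Kk v X
      have hvw : v ≠ w := fun h => hne (by rw [h])
      by_cases hv : v ∈ Set.range σ ∨ v ∈ Set.range τ
      · simp only [Kk, if_pos hv]
      · by_cases hw : w ∈ Set.range σ ∨ w ∈ Set.range τ
        · exfalso
          have e1 : rank (Sum.inr v) = 3 * N + 1 := by
            simp only [rank, Sum.elim_inr, if_neg hv]
          have e2 : rank (Sum.inr w) = 0 := by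
            simp only [rank, Sum.elim_inr, if_pos hw]
          rw [e1, e2] at hr
          omega
        · push Not at hw
          simp only [Kk, if_neg hv, psi]
          by_cases h6 : nxt σ v = v
          · simp only [if_pos h6]
          · have e3 : nxt σ v ≠ w := by
              intro h7
              obtain h8 | h8 := hnr v
              · exact h6 h8
              · exact hw.1 (h7 ▸ h8)
            simp only [flip_ne hvw, flip_ne e3]
  have h2 : ∀ i ∈ (univ : Finset ((Fin M ⊕ Fin M) ⊕ Fin N)), ∀ X,
      F i X + F i (flip (own i) X) = 2 * f i := by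
    rintro ((k | k) | v) - X
    · change H k X + H k (flip (σ k) X) = 2 * (if τ k = σ k then 1 else
        if τ k ∈ Set.range σ then 1 / 2 else if nxt σ (τ k) = σ k then 1 - ε else 1)
      simp only [H]
      by_cases a1 : τ k = σ k
      · simp only [if_pos a1]; norm_num
      · by_cases a2 : τ k ∈ Set.range σ
        · simp only [if_neg a1, if_pos a2, flip_same, flip_ne a1]
          cases X (σ k) <;> cases X (τ k) <;> norm_num
        · simp only [if_neg a1, if_neg a2]
          by_cases a3 : nxt σ (τ k) = τ k
          · have a4 : nxt σ (τ k) ≠ σ k := fun h => a1 (by rw [← a3, h])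
            simp only [if_pos a3, if_neg a4]; norm_num
          · by_cases a4 : nxt σ (τ k) = σ k
            · rw [if_neg a3, if_neg a3, a4, if_pos rfl, if_pos rfl, if_pos rfl]; ring
            · simp only [if_neg a3, if_neg a4, flip_same, flip_ne a4]
              cases X (σ k) <;> cases X (nxt σ (τ k)) <;> norm_num
    · change Cc k X + Cc k (flip (τ k) X) = 2 * (if τ k ∈ Set.range σ then 1 else 1 / 2)
      simp only [Cc]
      by_cases a2 : τ k ∈ Set.range σ
      · simp only [if_pos a2]; norm_num
      · have a1 : σ k ≠ τ k := fun h => a2 ⟨k, h⟩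
        simp only [if_neg a2, flip_same, flip_ne a1]
        cases X (σ k) <;> cases X (τ k) <;> norm_num
    · change Kk v X + Kk v (flip v X) = 2 * 1
      simp only [Kk]
      by_cases hv : v ∈ Set.range σ ∨ v ∈ Set.range τ
      · simp only [if_pos hv]; norm_num
      · simp only [if_neg hv, psi]
        by_cases a3 : nxt σ v = v
        · simp only [if_pos a3]; norm_num
        · simp only [if_neg a3, flip_same, flip_ne a3]
          cases X v <;> cases X (nxt σ v) <;> norm_num
  have hmain := elim univ rank own F f h1 h2
  rw [Fintype.card_fin] at hmain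
  have hR : ∏ i, f i = ∏ k, cw ε σ τ k := by
    rw [Fintype.prod_sum_type, Fintype.prod_sum_type]
    simp only [f, Sum.elim_inl, Sum.elim_inr, prod_const_one, mul_one]
    rw [← prod_mul_distrib]
    refine prod_congr rfl fun k _ => ?_
    unfold cw
    by_cases a1 : τ k = σ k
    · have a2 : τ k ∈ Set.range σ := ⟨k, a1.symm⟩
      simp only [if_pos a1, if_pos a2]; norm_num
    · by_cases a2 : τ k ∈ Set.range σ
      · have a3 : nxt σ (τ k) ≠ σ k := by
          obtain ⟨l, hl⟩ := a2
          rw [← hl, nxt_used hσ, hl]
          exact a1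
        simp only [if_neg a1, if_pos a2, if_neg a3]; norm_num
      · simp only [if_neg a1, if_neg a2]
        split_ifs <;> ring
  rw [← hR, ← hmain]
  refine sum_congr rfl fun X _ => ?_
  rw [Fintype.prod_sum_type, Fintype.prod_sum_type]
  simp only [F, Sum.elim_inl, Sum.elim_inr]
  by_cases hX : ∀ k, X (τ k) = X (σ k)
  · rw [if_pos hX]
    have e1 : ∏ k, Cc k X = 1 := by
      refine prod_eq_one fun k _ => ?_
      simp only [Cc, hX k, if_true, ite_self]
    have e2 : ∀ k, H k X = psi ε σ (τ k) X := by
      intro k
      simp only [H, psi]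
      by_cases a1 : τ k = σ k
      · rw [if_pos a1, if_pos (by rw [a1, nxt_used hσ])]
      · by_cases a2 : τ k ∈ Set.range σ
        · have a3 : nxt σ (τ k) = τ k := by
            obtain ⟨l, hl⟩ := a2
            rw [← hl, nxt_used hσ]
          rw [if_neg a1, if_pos a2, if_pos a3, if_pos (hX k).symm]
        · rw [if_neg a1, if_neg a2, hX k]
    have e3 : ∏ v, Kk v X = ∏ v ∈ univ.filter (fun v => v ∉ Set.range τ), psi ε σ v X := by
      rw [prod_filter]
      refine prod_congr rfl fun v _ => ?_
      simp only [Kk]
      by_cases a1 : v ∈ Set.range τ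
      · rw [if_pos (Or.inr a1), if_neg (by simpa using a1)]
      · rw [if_pos a1]
        by_cases a2 : v ∈ Set.range σ
        · rw [if_pos (Or.inl a2)]
          obtain ⟨l, hl⟩ := a2
          unfold psi
          rw [if_pos (by rw [← hl, nxt_used hσ])]
        · rw [if_neg (by tauto)]
    have e4 : ∏ k, H k X = ∏ v ∈ univ.filter (fun v => v ∈ Set.range τ), psi ε σ v X := by
      have : univ.filter (fun v => v ∈ Set.range τ) = univ.image τ := by
        ext v; simp
      rw [this, prod_image (fun a _ b _ h => hτ.injective h)]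
      exact prod_congr rfl fun k _ => e2 k
    rw [e1, e3, e4, mul_one]
    exact (prod_filter_mul_prod_filter_not univ (fun v => v ∈ Set.range τ) _).symm
  · rw [if_neg hX]
    push Not at hX
    obtain ⟨k, hk⟩ := hX
    symm
    have a1 : τ k ≠ σ k := fun h => hk (by rw [h])
    by_cases a2 : τ k ∈ Set.range σ
    · have : ∏ k, H k X = 0 := prod_eq_zero (mem_univ k) (by
        simp only [H, if_neg a1, if_pos a2, if_neg (Ne.symm hk)])
      rw [this]; ring
    · have : ∏ k, Cc k X = 0 := prod_eq_zero (mem_univ k) (by
        simp only [Cc, if_neg a2, if_neg hk])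
      rw [this]; ring

end word

end Pool.Agent.R457.PL
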