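import Pool.Agent.R457.PL.A

/-! The sum over pairs of embeddings is given by a linear recursion. -/

set_option autoImplicit false

namespace Pool.Agent.R457.PL

open Finset

/-- the recursion -/
noncomputable def P (ε : ℝ) : ℕ → ℤ → ℤ → ℝ
  | 0, m, o => if m = 0 ∧ o = 0 then 1 else 0
  | N + 1, m, o => P ε N m o + (if o = 0 then 2 else 1) * P ε N (m - 1) o +
      P ε N (m - 1) (o + 1) + (if o = 0 then 1 - ε else 1) * P ε N m (o - 1)

/-- weight of one step -/
noncomputable def om (ε : ℝ) (o : ℤ) (a b : Bool) : ℝ :=
  if b = true then (if o = 0 then (if a = true then 2 else 1 - ε) else 1) else 1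

/-- a boolean as an integer -/
def bi (a : Bool) : ℤ := if a = true then 1 else 0

/-- number of `true`s -/
def cnt {N : ℕ} (a : Fin N → Bool) : ℤ := ∑ i, bi (a i)

/-- number of `true`s before a position -/
def pre {N : ℕ} (a : Fin N → Bool) (i : Fin N) : ℤ := ∑ j, if j < i then bi (a j) else 0

/-- weight of a pair of boolean words -/
noncomputable def W (ε : ℝ) {N : ℕ} (o : ℤ) (a b : Fin N → Bool) : ℝ :=
  ∏ i, om ε (o + pre a i - pre b i) (a i) (b i)

theorem cnt_cons {N : ℕ} (x : Bool) (a : Fin N → Bool) :
    cnt (Fin.cons x a : Fin (N + 1) → Bool) = bi x + cnt a := by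
  unfold cnt
  rw [Fin.sum_univ_succ]
  simp

theorem pre_cons_zero {N : ℕ} (x : Bool) (a : Fin N → Bool) :
    pre (Fin.cons x a : Fin (N + 1) → Bool) 0 = 0 := by
  unfold pre
  exact sum_eq_zero fun j _ => by simp

theorem pre_cons_succ {N : ℕ} (x : Bool) (a : Fin N → Bool) (i : Fin N) :
    pre (Fin.cons x a : Fin (N + 1) → Bool) i.succ = bi x + pre a i := by
  unfold pre
  rw [Fin.sum_univ_succ]
  simp

theorem W_cons (ε : ℝ) {N : ℕ} (o : ℤ) (x y : Bool) (a b : Fin N → Bool) :
    W ε o (Fin.cons x a : Fin (N + 1) → Bool) (Fin.cons y b : Fin (N + 1) → Bool) =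
      om ε o x y * W ε (o + bi x - bi y) a b := by
  unfold W
  rw [Fin.prod_univ_succ]
  simp only [pre_cons_zero, pre_cons_succ, Fin.cons_zero, Fin.cons_succ]
  congr 1
  · rw [add_zero, sub_zero]
  · refine prod_congr rfl fun i _ => ?_
    congr 1
    ring

theorem sum_cons {N : ℕ} (f : (Fin (N + 1) → Bool) → ℝ) :
    ∑ a, f a = ∑ a : Fin N → Bool, f (Fin.cons true a : Fin (N + 1) → Bool) +
      ∑ a : Fin N → Bool, f (Fin.cons false a : Fin (N + 1) → Bool) := by
  rw [← (Fin.consEquiv (fun _ => Bool)).sum_comp, Fintype.sum_prod_type, Fintype.sum_bool]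
  rfl

theorem sum_W (ε : ℝ) : ∀ (N : ℕ) (m o : ℤ),
    ∑ a : Fin N → Bool, ∑ b : Fin N → Bool,
      (if cnt a = m ∧ cnt b = m + o then W ε o a b else 0) = P ε N m o := by
  intro N
  induction N with
  | zero =>
    intro m o
    have h : ∀ a : Fin 0 → Bool, cnt a = 0 := by intro a; simp [cnt]
    have h2 : ∀ a b : Fin 0 → Bool, W ε o a b = 1 := by intro a b; simp [W]
    simp only [univ_unique, sum_singleton, P, h, h2]
    refine if_congr ?_ rfl rfl
    constructor <;> intro h <;> constructor <;> omega
  | succ N ih =>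
    intro m o
    rw [sum_cons]
    have e : ∀ x : Bool, ∑ a : Fin N → Bool, ∑ b : Fin (N + 1) → Bool,
        (if cnt (Fin.cons x a : Fin (N + 1) → Bool) = m ∧ cnt b = m + o then
          W ε o (Fin.cons x a : Fin (N + 1) → Bool) b else 0) =
        om ε o x true * P ε N (m - bi x) (o + bi x - 1) +
        P ε N (m - bi x) (o + bi x) := by
      intro x
      rw [← ih, ← ih, mul_sum, ← sum_add_distrib]
      refine sum_congr rfl fun a _ => ?_
      rw [sum_cons, mul_sum]
      congr 1
      · refine sum_congr rfl fun b _ => ?_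
        rw [W_cons, cnt_cons, cnt_cons]
        have e1 : bi true = 1 := rfl
        rw [e1, mul_ite, mul_zero]
        refine if_congr ?_ rfl rfl
        constructor <;> intro h <;> constructor <;> omega
      · refine sum_congr rfl fun b _ => ?_
        rw [W_cons, cnt_cons, cnt_cons]
        have e1 : bi false = 0 := rfl
        have e2 : om ε o x false = 1 := rfl
        rw [e1, e2, one_mul, sub_zero]
        refine if_congr ?_ rfl rfl
        constructor <;> intro h <;> constructor <;> omega
    rw [e true, e false]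
    have e1 : bi true = 1 := rfl
    have e2 : bi false = 0 := rfl
    rw [e1, e2]
    have e3 : om ε o true true = if o = 0 then 2 else 1 := by simp [om]
    have e4 : om ε o false true = if o = 0 then 1 - ε else 1 := by simp [om]
    rw [e3, e4, sub_zero, add_zero]
    have e5 : o + 1 - 1 = o := by ring
    rw [e5]
    conv_rhs => rw [P]
    ring

open Classical in
/-- indicator of the range -/
noncomputable def ind {N M : ℕ} (σ : Fin M → Fin N) (i : Fin N) : Bool := decide (i ∈ Set.range σ)

theorem ind_true {N M : ℕ} (σ : Fin M → Fin N) (i : Fin N) : ind σ i = true ↔ i ∈ Set.range σ := by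
  simp [ind]

open Classical in
theorem pre_ind {N M : ℕ} {σ : Fin M → Fin N} (hσ : StrictMono σ) (i : Fin N) :
    pre (ind σ) i = ((univ.filter fun k => σ k < i).card : ℤ) := by
  unfold pre
  rw [card_filter]
  push_cast
  have h1 : ∀ j, (if j < i then bi (ind σ j) else 0) =
      if j ∈ univ.image σ then (if j < i then (1 : ℤ) else 0) else 0 := by
    intro j
    by_cases hj : j ∈ Set.range σ
    · have : j ∈ univ.image σ := by simpa using hj
      rw [if_pos this]
      have : bi (ind σ j) = 1 := by unfold bi; rw [if_pos ((ind_true σ j).2 hj)]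
      rw [this]
    · have : j ∉ univ.image σ := by simpa using hj
      rw [if_neg this]
      have : bi (ind σ j) = 0 := by unfold bi; rw [if_neg (fun h => hj ((ind_true σ j).1 h))]
      rw [this, ite_self]
  rw [sum_congr rfl fun j _ => h1 j, ← sum_filter, filter_mem_eq_inter, univ_inter,
    sum_image (fun a _ b _ h => hσ.injective h)]

open Classical in
theorem prod_cw (ε : ℝ) {N M : ℕ} {σ τ : Fin M → Fin N} (hσ : StrictMono σ) (hτ : StrictMono τ) :
    W ε 0 (ind σ) (ind τ) = ∏ k, (2 * cw ε σ τ k) := by
  unfold W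
  have h1 : ∀ i ∉ univ.image τ, om ε (0 + pre (ind σ) i - pre (ind τ) i) (ind σ i) (ind τ i) = 1 := by
    intro i hi
    have : ind τ i ≠ true := fun h => hi (by simpa using (ind_true τ i).1 h)
    unfold om
    rw [if_neg this]
  rw [← prod_subset (subset_univ (univ.image τ)) (fun i _ hi => h1 i hi),
    prod_image (fun a _ b _ h => hτ.injective h)]
  refine prod_congr rfl fun k _ => ?_
  have hb : ind τ (τ k) = true := (ind_true τ _).2 ⟨k, rfl⟩
  have hpb : pre (ind τ) (τ k) = (k : ℕ) := by
    rw [pre_ind hτ]
    congr 1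
    have : (univ.filter fun l => τ l < τ k) = Finset.Iio k := by
      ext l
      simp [hτ.lt_iff_lt]
    rw [this, Fin.card_Iio]
  rw [hb, hpb, pre_ind hσ, zero_add]
  unfold om
  rw [if_pos rfl]
  -- the offset vanishes iff the set is an initial segment of length `k`
  have key : (((univ.filter fun l => σ l < τ k).card : ℤ) - (k : ℕ) = 0) ↔
      (τ k ≤ σ k ∧ ∀ j < k, σ j < τ k) := by
    constructor
    · intro h
      have hc : (univ.filter fun l => σ l < τ k).card = k := by omega
      have hlow : ∀ l, σ l < τ k → ∀ l' ≤ l, σ l' < τ k := fun l hl l' hl' =>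
        lt_of_le_of_lt (hσ.monotone hl') hl
      constructor
      · by_contra hcon
        push Not at hcon
        have : Finset.Iic k ⊆ univ.filter fun l => σ l < τ k := by
          intro l hl
          rw [mem_filter]
          exact ⟨mem_univ _, hlow k hcon l (Finset.mem_Iic.1 hl)⟩
        have := card_le_card this
        rw [Fin.card_Iic] at this
        omega
      · intro j hj
        by_contra hcon
        have : (univ.filter fun l => σ l < τ k) ⊆ Finset.Iio j := by
          intro l hl
          rw [mem_filter] at hl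
          rw [Finset.mem_Iio]
          by_contra h2
          push Not at h2
          exact hcon (hlow l hl.2 j h2)
        have := card_le_card this
        rw [Fin.card_Iio] at this
        have hj' : (j : ℕ) < k := hj
        omega
    · rintro ⟨h1, h2⟩
      have : (univ.filter fun l => σ l < τ k) = Finset.Iio k := by
        ext l
        simp only [mem_filter, mem_univ, true_and, Finset.mem_Iio]
        constructor
        · intro h
          by_contra hcon
          push Not at hcon
          have := hσ.monotone hcon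
          exact absurd (lt_of_le_of_lt (h1.trans this) h) (lt_irrefl _)
        · exact h2 l
      rw [this, Fin.card_Iio]
      simp
  unfold cw
  by_cases a1 : τ k = σ k
  · rw [if_pos a1]
    have : τ k ≤ σ k ∧ ∀ j < k, σ j < τ k := ⟨a1.le, fun j hj => by rw [a1]; exact hσ hj⟩
    rw [if_pos (key.2 this), if_pos ((ind_true σ _).2 ⟨k, a1.symm⟩)]
    ring
  · rw [if_neg a1]
    by_cases a2 : nxt σ (τ k) = σ k
    · rw [if_pos a2]
      have hs : τ k ≤ σ k ∧ ∀ j < k, σ j < τ k := by
        rcases nxt_spec σ (τ k) with ⟨h3, h4⟩ | ⟨k', h3, h4, h5⟩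
        · exact absurd (h3.symm.trans a2) a1
        · have : k' = k := hσ.injective (by rw [← h3, a2])
          subst this
          exact ⟨h4, h5⟩
      have hn : ¬ ind σ (τ k) = true := by
        intro h
        obtain ⟨l, hl⟩ := (ind_true σ _).1 h
        rw [← hl, nxt_used hσ, hl] at a2
        exact a1 a2
      rw [if_pos (key.2 hs), if_neg hn]
      ring
    · rw [if_neg a2]
      have hn : ¬ (((univ.filter fun l => σ l < τ k).card : ℤ) - (k : ℕ) = 0) := by
        intro h
        obtain ⟨h1, h2⟩ := key.1 h
        rcases nxt_spec σ (τ k) with ⟨h3, h4⟩ | ⟨k', h3, h4, h5⟩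
        · exact absurd (h4 k) (not_lt.2 h1)
        · have : k' = k := by
            rcases lt_trichotomy k' k with h6 | h6 | h6
            · exact absurd (h2 k' h6) (not_lt.2 h4)
            · exact h6
            · exact absurd (h5 k h6) (not_lt.2 h1)
          exact a2 (by rw [h3, this])
      rw [if_neg hn]
      ring

open Classical in
/-- sums over strictly increasing maps as sums over boolean words -/
theorem sum_mono {N M : ℕ} (G : (Fin N → Bool) → ℝ) :
    ∑ σ ∈ univ.filter (fun σ : Fin M → Fin N => StrictMono σ), G (ind σ) =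
      ∑ a : Fin N → Bool, if cnt a = M then G a else 0 := by
  rw [← sum_filter]
  refine sum_bij (fun σ _ => ind σ) ?_ ?_ ?_ ?_
  · intro σ hσ
    rw [mem_filter] at hσ ⊢
    refine ⟨mem_univ _, ?_⟩
    unfold cnt
    have h1 : ∀ i, bi (ind σ i) = if i ∈ univ.image σ then 1 else 0 := by
      intro i
      unfold bi
      refine if_congr ?_ rfl rfl
      rw [ind_true]
      simp
    rw [sum_congr rfl fun i _ => h1 i, ← sum_filter, filter_mem_eq_inter, univ_inter,
      sum_image (fun a _ b _ h => hσ.2.injective h)]
    simp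
  · intro σ hσ τ hτ h
    rw [mem_filter] at hσ hτ
    rw [← StrictMono.range_inj hσ.2 hτ.2]
    ext i
    rw [← ind_true, ← ind_true, h]
  · intro a ha
    rw [mem_filter] at ha
    have hc : (univ.filter fun i => a i = true).card = M := by
      have h1 := ha.2
      unfold cnt bi at h1
      rw [← sum_filter, sum_const] at h1
      simpa using h1
    refine ⟨(univ.filter fun i => a i = true).orderEmbOfFin hc, ?_, ?_⟩
    · rw [mem_filter]
      exact ⟨mem_univ _, OrderEmbedding.strictMono _⟩
    · funext i
      rw [Bool.eq_iff_iff, ind_true, range_orderEmbOfFin]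
      simp
  · intro σ hσ
    rfl

open Classical in
theorem sum_pairs (ε : ℝ) (N M : ℕ) :
    ∑ σ ∈ univ.filter (fun σ : Fin M → Fin N => StrictMono σ),
      ∑ τ ∈ univ.filter (fun σ : Fin M → Fin N => StrictMono σ), ∏ k, cw ε σ τ k =
      P ε N M 0 / 2 ^ M := by
  have h1 : ∑ σ ∈ univ.filter (fun σ : Fin M → Fin N => StrictMono σ),
      ∑ τ ∈ univ.filter (fun σ : Fin M → Fin N => StrictMono σ), ∏ k, (2 * cw ε σ τ k) =
      P ε N M 0 := by
    rw [← sum_W]
    rw [show (∑ σ ∈ univ.filter (fun σ : Fin M → Fin N => StrictMono σ),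
      ∑ τ ∈ univ.filter (fun σ : Fin M → Fin N => StrictMono σ), ∏ k, (2 * cw ε σ τ k)) =
      ∑ σ ∈ univ.filter (fun σ : Fin M → Fin N => StrictMono σ),
        (fun a => ∑ b : Fin N → Bool, if cnt b = M then W ε 0 a b else 0) (ind σ) from ?_]
    · rw [sum_mono (fun a => ∑ b : Fin N → Bool, if cnt b = M then W ε 0 a b else 0)]
      refine sum_congr rfl fun a _ => ?_
      by_cases ha : cnt a = M
      · rw [if_pos ha]
        refine sum_congr rfl fun b _ => ?_
        refine if_congr ?_ rfl rfl
        rw [add_zero]
        exact ⟨fun h => ⟨ha, h⟩, fun h => h.2⟩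
      · rw [if_neg ha]
        symm
        refine sum_eq_zero fun b _ => ?_
        rw [if_neg fun h => ha h.1]
    · refine sum_congr rfl fun σ hσ => ?_
      rw [mem_filter] at hσ
      change _ = ∑ b : Fin N → Bool, if cnt b = M then W ε 0 (ind σ) b else 0
      rw [← sum_mono (M := M) (fun b => W ε 0 (ind σ) b)]
      refine sum_congr rfl fun τ hτ => ?_
      rw [mem_filter] at hτ
      exact (prod_cw ε hσ.2 hτ.2).symm
  rw [eq_div_iff (by positivity), ← h1, sum_mul]
  refine sum_congr rfl fun σ _ => ?_
  rw [sum_mul]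
  refine sum_congr rfl fun τ _ => ?_
  rw [prod_mul_distrib, prod_const, card_univ, Fintype.card_fin]
  ring

end Pool.Agent.R457.PL
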