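import Pool.Agent.R457.PL.B

/-! Upper and lower exponential bounds for the recursion. -/

set_option autoImplicit false

namespace Pool.Agent.R457.PL

open Finset

theorem P_succ (ε : ℝ) (N : ℕ) (m o : ℤ) : P ε (N + 1) m o =
    P ε N m o + (if o = 0 then 2 else 1) * P ε N (m - 1) o +
      P ε N (m - 1) (o + 1) + (if o = 0 then 1 - ε else 1) * P ε N m (o - 1) := by
  rw [P]

theorem P_nonneg {ε : ℝ} (hε : ε ≤ 1) : ∀ (N : ℕ) (m o : ℤ), 0 ≤ P ε N m o := by
  intro N
  induction N with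
  | zero => intro m o; rw [P]; split_ifs <;> norm_num
  | succ N ih =>
    intro m o
    rw [P_succ]
    have h1 : (0 : ℝ) ≤ if o = 0 then 2 else 1 := by split_ifs <;> norm_num
    have h2 : (0 : ℝ) ≤ if o = 0 then 1 - ε else 1 := by
      split_ifs
      · linarith
      · norm_num
    have := ih m o
    have := mul_nonneg h1 (ih (m - 1) o)
    have := ih (m - 1) (o + 1)
    have := mul_nonneg h2 (ih m (o - 1))
    linarith

theorem P_neg (ε : ℝ) : ∀ (N : ℕ) (m o : ℤ), m < 0 → P ε N m o = 0 := by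
  intro N
  induction N with
  | zero => intro m o h; rw [P, if_neg (by omega)]
  | succ N ih =>
    intro m o h
    rw [P_succ, ih m o h, ih (m - 1) o (by omega), ih (m - 1) (o + 1) (by omega),
      ih m (o - 1) h]
    ring

theorem P_big (ε : ℝ) : ∀ (N : ℕ) (m o : ℤ), (N : ℤ) < m → P ε N m o = 0 := by
  intro N
  induction N with
  | zero => intro m o h; rw [P, if_neg (by omega)]
  | succ N ih =>
    intro m o h
    push_cast at h
    rw [P_succ, ih m o (by omega), ih (m - 1) o (by omega), ih (m - 1) (o + 1) (by omega),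
      ih m (o - 1) (by omega)]
    ring

theorem natAbs_cases {o : ℤ} (ho : o ≠ 0) : ∃ k : ℕ, o.natAbs = k + 1 ∧
    (((o + 1).natAbs = k + 2 ∧ (o - 1).natAbs = k) ∨ ((o + 1).natAbs = k ∧ (o - 1).natAbs = k + 2)) := by
  refine ⟨o.natAbs - 1, by omega, ?_⟩
  rcases lt_or_gt_of_ne ho with h | h
  · right; omega
  · left; omega

/-- termwise upper bound -/
theorem upper {ε y r Λ : ℝ} (hε : ε ≤ 1) (hy : 0 < y) (hr : 0 < r)
    (h1 : 1 + y ^ 2 + y * (r + 1 / r) ≤ Λ) (h2 : 1 + 2 * y ^ 2 + (2 - ε) * (y * r) ≤ Λ) :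
    ∀ (N : ℕ) (m o : ℤ), P ε N m o * y ^ (2 * m + o) ≤ Λ ^ N * r ^ o.natAbs := by
  have hΛ : 0 < Λ := by
    have : 0 < 1 + y ^ 2 + y * (r + 1 / r) := by positivity
    linarith
  intro N
  induction N with
  | zero =>
    intro m o
    rw [P, pow_zero, one_mul]
    split_ifs with h
    · rw [h.1, h.2]; simp
    · rw [zero_mul]; positivity
  | succ N ih =>
    intro m o
    have hy0 : y ≠ 0 := hy.ne'
    have e0 := ih m o
    have e1 := ih (m - 1) o
    have e2 := ih (m - 1) (o + 1)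
    have e3 := ih m (o - 1)
    have z1 : y ^ (2 * m + o) = y ^ 2 * y ^ (2 * (m - 1) + o) := by
      rw [show 2 * m + o = 2 + (2 * (m - 1) + o) by ring, zpow_add₀ hy0]; norm_cast
    have z2 : y ^ (2 * m + o) = y * y ^ (2 * (m - 1) + (o + 1)) := by
      rw [show 2 * m + o = 1 + (2 * (m - 1) + (o + 1)) by ring, zpow_add₀ hy0, zpow_one]
    have z3 : y ^ (2 * m + o) = y * y ^ (2 * m + (o - 1)) := by
      rw [show 2 * m + o = 1 + (2 * m + (o - 1)) by ring, zpow_add₀ hy0, zpow_one]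
    have hexp : P ε (N + 1) m o * y ^ (2 * m + o) =
        P ε N m o * y ^ (2 * m + o) +
        (if o = 0 then 2 else 1) * y ^ 2 * (P ε N (m - 1) o * y ^ (2 * (m - 1) + o)) +
        y * (P ε N (m - 1) (o + 1) * y ^ (2 * (m - 1) + (o + 1))) +
        (if o = 0 then 1 - ε else 1) * y * (P ε N m (o - 1) * y ^ (2 * m + (o - 1))) := by
      rw [P_succ]
      linear_combination ((if o = 0 then 2 else 1) * P ε N (m - 1) o) * z1 +
        P ε N (m - 1) (o + 1) * z2 + ((if o = 0 then 1 - ε else 1) * P ε N m (o - 1)) * z3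
    rw [hexp]
    have hΛN : 0 < Λ ^ N := pow_pos hΛ N
    by_cases ho : o = 0
    · subst ho
      simp only [if_true]
      have q1 : (0 : ℤ).natAbs = 0 := rfl
      have q2 : ((0 : ℤ) + 1).natAbs = 1 := rfl
      have q3 : ((0 : ℤ) - 1).natAbs = 1 := rfl
      rw [q1] at e0 e1 ⊢
      rw [q2] at e2
      rw [q3] at e3
      rw [pow_zero, mul_one] at e0 e1 ⊢
      rw [pow_one] at e2 e3
      have c1 := mul_le_mul_of_nonneg_left e1 (show (0 : ℝ) ≤ 2 * y ^ 2 by positivity)
      have c2 := mul_le_mul_of_nonneg_left e2 hy.le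
      have c3 := mul_le_mul_of_nonneg_left e3 (show (0 : ℝ) ≤ (1 - ε) * y by
        exact mul_nonneg (by linarith) hy.le)
      have c4 := mul_le_mul_of_nonneg_left h2 hΛN.le
      rw [pow_succ Λ N]
      nlinarith [c1, c2, c3, c4, e0]
    · simp only [if_neg ho]
      obtain ⟨k, hk, hk2⟩ := natAbs_cases ho
      have hrk : 0 < r ^ (k + 1) := pow_pos hr _
      have c1 := mul_le_mul_of_nonneg_left e1 (show (0 : ℝ) ≤ 1 * y ^ 2 by positivity)
      have c2 := mul_le_mul_of_nonneg_left e2 hy.le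
      have c3 := mul_le_mul_of_nonneg_left e3 (show (0 : ℝ) ≤ 1 * y by positivity)
      have c4 := mul_le_mul_of_nonneg_left h1 (mul_pos hΛN hrk).le
      have c5 : r ^ k = r ^ (k + 1) * (1 / r) := by rw [pow_succ]; field_simp
      have c6 : r ^ (k + 2) = r ^ (k + 1) * r := by rw [← pow_succ]
      have c7 : r ^ (o + 1).natAbs + r ^ (o - 1).natAbs = r ^ (k + 1) * (r + 1 / r) := by
        rcases hk2 with ⟨a, b⟩ | ⟨a, b⟩
        · rw [a, b, c5, c6]; ring
        · rw [a, b, c5, c6]; ring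
      rw [hk] at e0 c1 ⊢
      have c8 : Λ ^ N * y * (r ^ (o + 1).natAbs + r ^ (o - 1).natAbs) =
        Λ ^ N * y * (r ^ (k + 1) * (r + 1 / r)) := by rw [c7]
      rw [pow_succ Λ N]
      nlinarith [c1, c2, c3, c4, e0, c8]

/-- the sum over `m` -/
noncomputable def U (y : ℝ) : ℕ → ℤ → ℝ
  | 0, o => if o = 0 then 1 else 0
  | N + 1, o => (1 + (if o = 0 then 2 else 1) * y ^ 2) * U y N o + y * U y N (o + 1) +
      y * U y N (o - 1)

theorem U_eq {y : ℝ} (hy : 0 < y) : ∀ (N : ℕ) (o : ℤ),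
    ∑ m ∈ range (N + 1), P 0 N m o * y ^ (2 * (m : ℤ) + o) = U y N o := by
  intro N
  induction N with
  | zero =>
    intro o
    rw [sum_range_one, P, U]
    by_cases h : o = 0
    · subst h; simp
    · simp [h]
  | succ N ih =>
    intro o
    have hy0 : y ≠ 0 := hy.ne'
    rw [U, ← ih, ← ih, ← ih]
    have e0 : ∑ m ∈ range (N + 1 + 1), P 0 N m o * y ^ (2 * (m : ℤ) + o) =
        ∑ m ∈ range (N + 1), P 0 N m o * y ^ (2 * (m : ℤ) + o) := by
      rw [sum_range_succ, P_big 0 N _ _ (by push_cast; omega)]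
      ring
    have e1 : ∑ m ∈ range (N + 1 + 1), P 0 N ((m : ℤ) - 1) o * y ^ (2 * (m : ℤ) + o) =
        y ^ 2 * ∑ m ∈ range (N + 1), P 0 N m o * y ^ (2 * (m : ℤ) + o) := by
      rw [sum_range_succ', P_neg 0 N _ _ (by simp), zero_mul, add_zero, mul_sum]
      refine sum_congr rfl fun m _ => ?_
      have : y ^ (2 * ((m + 1 : ℕ) : ℤ) + o) = y ^ 2 * y ^ (2 * (m : ℤ) + o) := by
        push_cast
        rw [show 2 * ((m : ℤ) + 1) + o = 2 + (2 * (m : ℤ) + o) by ring, zpow_add₀ hy0]; norm_cast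
      rw [this]
      push_cast
      rw [show (m : ℤ) + 1 - 1 = m by ring]
      ring
    have e2 : ∑ m ∈ range (N + 1 + 1), P 0 N ((m : ℤ) - 1) (o + 1) * y ^ (2 * (m : ℤ) + o) =
        y * ∑ m ∈ range (N + 1), P 0 N m (o + 1) * y ^ (2 * (m : ℤ) + (o + 1)) := by
      rw [sum_range_succ', P_neg 0 N _ _ (by simp), zero_mul, add_zero, mul_sum]
      refine sum_congr rfl fun m _ => ?_
      have : y ^ (2 * ((m + 1 : ℕ) : ℤ) + o) = y * y ^ (2 * (m : ℤ) + (o + 1)) := by
        push_cast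
        rw [show 2 * ((m : ℤ) + 1) + o = 1 + (2 * (m : ℤ) + (o + 1)) by ring, zpow_add₀ hy0,
          zpow_one]
      rw [this]
      push_cast
      rw [show (m : ℤ) + 1 - 1 = m by ring]
      ring
    have e3 : ∑ m ∈ range (N + 1 + 1), P 0 N m (o - 1) * y ^ (2 * (m : ℤ) + o) =
        y * ∑ m ∈ range (N + 1), P 0 N m (o - 1) * y ^ (2 * (m : ℤ) + (o - 1)) := by
      rw [sum_range_succ, P_big 0 N _ _ (by push_cast; omega), zero_mul, add_zero, mul_sum]
      refine sum_congr rfl fun m _ => ?_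
      rw [show 2 * (m : ℤ) + o = 1 + (2 * (m : ℤ) + (o - 1)) by ring, zpow_add₀ hy0, zpow_one]
      ring
    have h3 : ∀ m : ℕ, P 0 (N + 1) m o * y ^ (2 * (m : ℤ) + o) =
        P 0 N m o * y ^ (2 * (m : ℤ) + o) +
        (if o = 0 then 2 else 1) * (P 0 N ((m : ℤ) - 1) o * y ^ (2 * (m : ℤ) + o)) +
        P 0 N ((m : ℤ) - 1) (o + 1) * y ^ (2 * (m : ℤ) + o) +
        P 0 N m (o - 1) * y ^ (2 * (m : ℤ) + o) := by
      intro m
      rw [P_succ, sub_zero, ite_self]
      ring
    rw [sum_congr rfl fun m _ => h3 m, sum_add_distrib, sum_add_distrib, sum_add_distrib,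
      ← mul_sum, e0, e1, e2, e3]
    ring

theorem U_nonneg {y : ℝ} (hy : 0 < y) : ∀ (N : ℕ) (o : ℤ), 0 ≤ U y N o := by
  intro N
  induction N with
  | zero => intro o; rw [U]; split_ifs <;> norm_num
  | succ N ih =>
    intro o
    rw [U]
    have h1 : (0 : ℝ) ≤ 1 + (if o = 0 then 2 else 1) * y ^ 2 := by split_ifs <;> positivity
    have := mul_nonneg h1 (ih o)
    have := mul_nonneg hy.le (ih (o + 1))
    have := mul_nonneg hy.le (ih (o - 1))
    linarith

/-- crude lower bound -/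
theorem U_crude {y w : ℝ} (hw : 0 < w) (hw1 : w ≤ 1) (hwy : w ≤ y) :
    ∀ (N : ℕ) (o : ℤ), o.natAbs ≤ N → w ^ N ≤ U y N o := by
  have hy : 0 < y := lt_of_lt_of_le hw hwy
  intro N
  induction N with
  | zero =>
    intro o ho
    have : o = 0 := by omega
    rw [U, if_pos this]; simp
  | succ N ih =>
    intro o ho
    rw [U]
    have h1 : (1 : ℝ) ≤ 1 + (if o = 0 then 2 else 1) * y ^ 2 := by
      have : (0 : ℝ) ≤ (if o = 0 then 2 else 1) * y ^ 2 := by split_ifs <;> positivity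
      linarith
    have n0 := U_nonneg hy N o
    have n1 := mul_nonneg hy.le (U_nonneg hy N (o + 1))
    have n2 := mul_nonneg hy.le (U_nonneg hy N (o - 1))
    have n3 : 1 * U y N o ≤ (1 + (if o = 0 then 2 else 1) * y ^ 2) * U y N o :=
      mul_le_mul_of_nonneg_right h1 n0
    have hwN : 0 < w ^ N := pow_pos hw N
    by_cases h : o.natAbs ≤ N
    · have := ih o h
      have : w ^ (N + 1) ≤ w ^ N := pow_le_pow_of_le_one hw.le hw1 (Nat.le_succ N)
      linarith
    · rcases lt_or_ge o 0 with h2 | h2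
      · have h3 := ih (o + 1) (by omega)
        have h4 : w ^ N * w ≤ U y N (o + 1) * y :=
          mul_le_mul h3 hwy hw.le (U_nonneg hy N _)
        rw [pow_succ]
        nlinarith
      · have h3 := ih (o - 1) (by omega)
        have h4 : w ^ N * w ≤ U y N (o - 1) * y :=
          mul_le_mul h3 hwy hw.le (U_nonneg hy N _)
        rw [pow_succ]
        nlinarith

/-- the truncated ground state -/
noncomputable def gs (r : ℝ) (K : ℕ) (o : ℤ) : ℝ :=
  if o.natAbs < K then r ^ o.natAbs - r ^ (2 * K - o.natAbs) else 0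

theorem gs_nonneg {r : ℝ} (hr : 0 < r) (hr1 : r < 1) (K : ℕ) (o : ℤ) : 0 ≤ gs r K o := by
  unfold gs
  split_ifs with h
  · have : r ^ (2 * K - o.natAbs) ≤ r ^ o.natAbs :=
      pow_le_pow_of_le_one hr.le hr1.le (by omega)
    linarith
  · exact le_rfl

theorem gs_ge {r : ℝ} (hr : 0 < r) (hr1 : r < 1) {K : ℕ} {o : ℤ} (ho : o.natAbs ≤ 2 * K) :
    r ^ o.natAbs - r ^ (2 * K - o.natAbs) ≤ gs r K o := by
  unfold gs
  split_ifs with h
  · exact le_rfl
  · have : r ^ o.natAbs ≤ r ^ (2 * K - o.natAbs) :=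
      pow_le_pow_of_le_one hr.le hr1.le (by omega)
    linarith

theorem gs_le_one {r : ℝ} (hr : 0 < r) (hr1 : r < 1) (K : ℕ) (o : ℤ) : gs r K o ≤ 1 := by
  unfold gs
  split_ifs with h
  · have h1 : r ^ o.natAbs ≤ 1 := pow_le_one₀ hr.le hr1.le
    have h2 : 0 < r ^ (2 * K - o.natAbs) := pow_pos hr _
    linarith
  · norm_num

/-- the truncated ground state is a subsolution -/
theorem gs_sub {r y l : ℝ} (hr : 0 < r) (hr1 : r < 1) (hy : y = 1 / r - r)
    {K : ℕ} (hK : 0 < K)
    (hl : l ≤ 2 / r ^ 2 - 1 - 2 * y ^ 2 * r ^ (2 * K) / (1 - r ^ (2 * K))) (o : ℤ) :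
    l * gs r K o ≤ (1 + (if o = 0 then 2 else 1) * y ^ 2) * gs r K o + y * gs r K (o + 1) +
      y * gs r K (o - 1) := by
  have hy0 : 0 < y := by
    rw [hy]
    have : 1 < 1 / r := by rw [lt_div_iff₀ hr]; linarith
    linarith
  have hrK : r ^ (2 * K) < 1 := pow_lt_one₀ hr.le hr1 (by omega)
  have hrK0 : 0 < r ^ (2 * K) := pow_pos hr _
  have hl0 : l ≤ 2 / r ^ 2 - 1 := by
    have : 0 ≤ 2 * y ^ 2 * r ^ (2 * K) / (1 - r ^ (2 * K)) := by
      apply div_nonneg (by positivity); linarith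
    linarith
  have hlam : 2 / r ^ 2 - 1 = 1 + y ^ 2 + y * (r + 1 / r) := by
    rw [hy]; field_simp; ring
  have hlam2 : 2 / r ^ 2 - 1 = 1 + 2 * y ^ 2 + 2 * y * r := by
    rw [hy]; field_simp; ring
  have n1 := mul_nonneg hy0.le (gs_nonneg hr hr1 K (o + 1))
  have n2 := mul_nonneg hy0.le (gs_nonneg hr hr1 K (o - 1))
  by_cases hoK : o.natAbs < K
  · by_cases ho : o = 0
    · subst ho
      simp only [if_true]
      have g0 : gs r K 0 = 1 - r ^ (2 * K) := by
        unfold gs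
        rw [if_pos hoK]
        simp
      have g1 : r - r ^ (2 * K - 1) ≤ gs r K (0 + 1) := by
        have := gs_ge (K := K) (o := 0 + 1) hr hr1 (by change 1 ≤ 2 * K; omega)
        have q2 : ((0 : ℤ) + 1).natAbs = 1 := rfl
        rw [q2, pow_one] at this
        exact this
      have g2 : r - r ^ (2 * K - 1) ≤ gs r K (0 - 1) := by
        have := gs_ge (K := K) (o := 0 - 1) hr hr1 (by change 1 ≤ 2 * K; omega)
        have q2 : ((0 : ℤ) - 1).natAbs = 1 := rfl
        rw [q2, pow_one] at this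
        exact this
      have g3 : r ^ (2 * K - 1) = r ^ (2 * K) * (1 / r) := by
        have : 2 * K = (2 * K - 1) + 1 := by omega
        conv_rhs => rw [this, pow_succ]
        field_simp
      rw [g0]
      have c1 := mul_le_mul_of_nonneg_left g1 hy0.le
      have c2 := mul_le_mul_of_nonneg_left g2 hy0.le
      have hpos : 0 < 1 - r ^ (2 * K) := by linarith
      have c3 : l * (1 - r ^ (2 * K)) ≤
          (2 / r ^ 2 - 1) * (1 - r ^ (2 * K)) - 2 * y ^ 2 * r ^ (2 * K) := by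
        have := mul_le_mul_of_nonneg_right hl hpos.le
        rw [sub_mul _ (2 * y ^ 2 * r ^ (2 * K) / (1 - r ^ (2 * K))), div_mul_cancel₀ _ hpos.ne'] at this
        exact this
      rw [g3] at c1 c2
      have c4 : (2 / r ^ 2 - 1) * (1 - r ^ (2 * K)) - 2 * y ^ 2 * r ^ (2 * K) =
          (1 + 2 * y ^ 2) * (1 - r ^ (2 * K)) + 2 * (y * (r - r ^ (2 * K) * (1 / r))) := by
        rw [hlam2]
        have : 1 / r = y + r := by rw [hy]; ring
        rw [this]
        ring
      rw [c4] at c3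
      generalize gs r K (0 + 1) = A1 at *
      generalize gs r K (0 - 1) = A2 at *
      generalize y * (r - r ^ (2 * K) * (1 / r)) = A3 at *
      linarith
    · obtain ⟨k, hk, hk2⟩ := natAbs_cases ho
      simp only [if_neg ho]
      have g0 : gs r K o = r ^ (k + 1) - r ^ (2 * K - (k + 1)) := by
        unfold gs
        rw [if_pos hoK, hk]
      have hkk : 2 * K - (k + 1) = (2 * K - (k + 2)) + 1 := by omega
      have hkk2 : 2 * K - k = (2 * K - (k + 2)) + 2 := by omega
      have g1 : r ^ (k + 2) - r ^ (2 * K - (k + 2)) + (r ^ k - r ^ (2 * K - k)) ≤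
          gs r K (o + 1) + gs r K (o - 1) := by
        rcases hk2 with ⟨a, b⟩ | ⟨a, b⟩
        · have u1 := gs_ge (K := K) (o := o + 1) hr hr1 (by omega)
          have u2 := gs_ge (K := K) (o := o - 1) hr hr1 (by omega)
          rw [a] at u1; rw [b] at u2; linarith
        · have u1 := gs_ge (K := K) (o := o + 1) hr hr1 (by omega)
          have u2 := gs_ge (K := K) (o := o - 1) hr hr1 (by omega)
          rw [a] at u1; rw [b] at u2; linarith
      have g2 : r ^ (k + 2) - r ^ (2 * K - (k + 2)) + (r ^ k - r ^ (2 * K - k)) =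
          (r + 1 / r) * gs r K o := by
        rw [g0, hkk, hkk2]
        field_simp
        ring
      rw [g2] at g1
      have c1 := mul_le_mul_of_nonneg_left g1 hy0.le
      have c2 := mul_le_mul_of_nonneg_right hl0 (gs_nonneg hr hr1 K o)
      rw [hlam] at c2
      nlinarith [c1, c2]
  · have g0 : gs r K o = 0 := by unfold gs; rw [if_neg hoK]
    rw [g0]
    linarith

/-- exponential lower bound for the sum -/
theorem U_lower {r y l w : ℝ} (hr : 0 < r) (hr1 : r < 1) (hy : y = 1 / r - r)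
    {K : ℕ} (hK : 0 < K) (hl0 : 0 ≤ l) (hw : 0 < w) (hw1 : w ≤ 1) (hwy : w ≤ y)
    (hl : l ≤ 2 / r ^ 2 - 1 - 2 * y ^ 2 * r ^ (2 * K) / (1 - r ^ (2 * K))) (n : ℕ) (o : ℤ) :
    w ^ K * l ^ n * gs r K o ≤ U y (K + n) o := by
  have hy0 : 0 < y := lt_of_lt_of_le hw hwy
  induction n generalizing o with
  | zero =>
    rw [pow_zero, mul_one, add_zero]
    by_cases h : o.natAbs < K
    · have h1 := U_crude hw hw1 hwy K o h.le
      have h2 := gs_le_one hr hr1 K o
      have h3 : 0 < w ^ K := pow_pos hw K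
      nlinarith [gs_nonneg hr hr1 K o]
    · unfold gs
      rw [if_neg h, mul_zero]
      exact U_nonneg hy0 K o
  | succ n ih =>
    have h1 := gs_sub hr hr1 hy hK hl o
    have h2 : 0 ≤ w ^ K * l ^ n := by positivity
    have h3 := mul_le_mul_of_nonneg_left h1 h2
    have hc : (0 : ℝ) ≤ 1 + (if o = 0 then 2 else 1) * y ^ 2 := by split_ifs <;> positivity
    have i0 := mul_le_mul_of_nonneg_left (ih o) hc
    have i1 := mul_le_mul_of_nonneg_left (ih (o + 1)) hy0.le
    have i2 := mul_le_mul_of_nonneg_left (ih (o - 1)) hy0.le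
    rw [← add_assoc, U]
    calc w ^ K * l ^ (n + 1) * gs r K o = w ^ K * l ^ n * (l * gs r K o) := by rw [pow_succ]; ring
      _ ≤ _ := h3
      _ = (1 + (if o = 0 then 2 else 1) * y ^ 2) * (w ^ K * l ^ n * gs r K o) +
          y * (w ^ K * l ^ n * gs r K (o + 1)) + y * (w ^ K * l ^ n * gs r K (o - 1)) := by ring
      _ ≤ _ := by linarith

end Pool.Agent.R457.PL
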