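import Pool.Agent.R457.PL.C

/-! Exponential rates of the recursion. -/

set_option autoImplicit false

namespace Pool.Agent.R457.PL

open Finset Filter Topology

noncomputable def yy (x : ℝ) : ℝ := x - 1 / x
noncomputable def ll (x : ℝ) : ℝ := 2 * x ^ 2 - 1

theorem yy_pos {x : ℝ} (hx : 1 < x) : 0 < yy x := by
  unfold yy
  have : 1 / x < 1 := by rw [div_lt_one (by linarith)]; exact hx
  linarith

theorem ll_gt {x : ℝ} (hx : 1 < x) : 1 < ll x := by
  unfold ll; nlinarith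

theorem zpow_even (y : ℝ) (m : ℕ) : y ^ (2 * (m : ℤ) + 0) = y ^ (2 * m) := by
  rw [add_zero]; norm_cast

theorem up0 {x : ℝ} (hx : 1 < x) (N m : ℕ) : P 0 N m 0 * yy x ^ (2 * m) ≤ ll x ^ N := by
  have hx0 : 0 < x := by linarith
  have hx1 : x ≠ 0 := hx0.ne'
  have c1 : 1 + yy x ^ 2 + yy x * (1 / x + 1 / (1 / x)) = ll x := by
    unfold yy ll; field_simp; ring
  have c2 : 1 + 2 * yy x ^ 2 + (2 - 0) * (yy x * (1 / x)) = ll x := by
    unfold yy ll; field_simp; ring
  have h := upper (ε := 0) (y := yy x) (r := 1 / x) (Λ := ll x) zero_le_one (yy_pos hx)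
    (by positivity) c1.le c2.le N m 0
  rw [zpow_even, Int.natAbs_zero, pow_zero, mul_one] at h
  exact h

/-- the gain of the tilt -/
noncomputable def kap (x : ℝ) : ℝ := min ((1 - (1 / x) ^ 2) / 2) (yy x ^ 2 / 8)

theorem kap_pos {x : ℝ} (hx : 1 < x) : 0 < kap x := by
  unfold kap
  have h1 : 1 / x < 1 := by rw [div_lt_one (by linarith)]; exact hx
  have h2 : 0 < 1 / x := by positivity
  have h3 : (1 / x) ^ 2 < 1 := by nlinarith
  have h4 := yy_pos hx
  apply lt_min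
  · linarith
  · positivity

theorem upe {x ε : ℝ} (hx : 1 < x) (hε0 : 0 ≤ ε) (hε1 : ε ≤ 1) (hε2 : ε ≤ 2 * (1 - (1 / x) ^ 2))
    (N m : ℕ) : P ε N m 0 * yy x ^ (2 * m) ≤ (ll x - kap x * ε) ^ N := by
  have hx0 : 0 < x := by linarith
  have hx1 : x ≠ 0 := hx0.ne'
  set r := 1 / x with hrdef
  have hr0 : 0 < r := by positivity
  have hr1 : r < 1 := by rw [hrdef, div_lt_one hx0]; exact hx
  have hy := yy_pos hx
  have hyr : yy x * r = 1 - r ^ 2 := by rw [hrdef]; unfold yy; field_simp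
  have hxr : x = 1 / r := by rw [hrdef]; field_simp
  have hyr2 : 1 / r = yy x + r := by rw [← hxr, hrdef]; unfold yy; ring
  have hll : ll x = 1 + yy x ^ 2 + yy x * (r + 1 / r) := by
    rw [← hxr, hrdef]; unfold yy ll; field_simp; ring
  have hll2 : ll x = 1 + 2 * yy x ^ 2 + 2 * (yy x * r) := by
    rw [hrdef]; unfold yy ll; field_simp; ring
  set r' := r * (1 + ε / 4) with hr'
  have hr'0 : 0 < r' := by rw [hr']; positivity
  have hr'r : r ≤ r' := by rw [hr']; nlinarith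
  have k1 : kap x ≤ (1 - r ^ 2) / 2 := min_le_left _ _
  have k2 : kap x ≤ yy x ^ 2 / 8 := min_le_right _ _
  have c1 : 1 + yy x ^ 2 + yy x * (r' + 1 / r') ≤ ll x - kap x * ε := by
    have h1 : 1 / r' ≥ (1 / r + r) / 2 := by
      rw [ge_iff_le, le_div_iff₀ hr'0, hr']
      have : (1 / r + r) / 2 * (r * (1 + ε / 4)) = (1 + r ^ 2) * (1 + ε / 4) / 2 := by
        field_simp
      rw [this]
      nlinarith [sq_nonneg r]
    have h2 : r' + 1 / r' - (r + 1 / r) = - (ε / 4) * (1 / r' - r) := by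
      rw [hr']
      field_simp
      ring
    have h3 : r' + 1 / r' ≤ r + 1 / r - ε / 4 * (yy x / 2) := by
      have : 1 / r' - r ≥ yy x / 2 := by rw [hyr2] at h1; linarith
      nlinarith
    have h4 : yy x * (r' + 1 / r') ≤ yy x * (r + 1 / r - ε / 4 * (yy x / 2)) :=
      mul_le_mul_of_nonneg_left h3 hy.le
    have h5 : kap x * ε ≤ yy x ^ 2 / 8 * ε := mul_le_mul_of_nonneg_right k2 hε0
    rw [hll]
    nlinarith
  have c2 : 1 + 2 * yy x ^ 2 + (2 - ε) * (yy x * r') ≤ ll x - kap x * ε := by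
    have h1 : yy x * r' = (1 - r ^ 2) * (1 + ε / 4) := by rw [hr', ← mul_assoc, hyr]
    have h5 : kap x * ε ≤ (1 - r ^ 2) / 2 * ε := mul_le_mul_of_nonneg_right k1 hε0
    rw [h1, hll2, hyr]
    have h6 : 0 < 1 - r ^ 2 := by nlinarith
    nlinarith [mul_nonneg h6.le (sq_nonneg ε)]
  have h := upper (ε := ε) (y := yy x) (r := r') (Λ := ll x - kap x * ε) hε1 hy hr'0 c1 c2 N m 0
  rw [zpow_even, Int.natAbs_zero, pow_zero, mul_one] at h
  exact h

/-! ### Chernoff bound -/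

theorem hasDerivAt_phi (a : ℝ) {x : ℝ} (hx : 1 < x) :
    HasDerivAt (fun z => Real.log (ll z) - 2 * a * Real.log (yy z))
      (4 * x / ll x - 2 * a * ((1 + 1 / x ^ 2) / yy x)) x := by
  have hx0 : x ≠ 0 := by linarith
  have h1 : HasDerivAt ll (4 * x) x := by
    have := ((hasDerivAt_pow 2 x).const_mul 2).sub_const 1
    exact this.congr_deriv (by norm_num; ring)
  have h2 : HasDerivAt yy (1 + 1 / x ^ 2) x := by
    have h0 := (hasDerivAt_id x).sub (hasDerivAt_inv hx0)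
    have e : yy = id - fun y : ℝ => y⁻¹ := by
      funext z
      simp [yy]
    rw [e]
    exact h0.congr_deriv (by rw [one_div]; ring)
  have h3 := h1.log (by have := ll_gt hx; linarith)
  have h4 := (h2.log (yy_pos hx).ne').const_mul (2 * a)
  exact h3.sub h4

theorem exists_right {f : ℝ → ℝ} {f' x : ℝ} (h : HasDerivAt f f' x) (hf : f' < 0) :
    ∃ z, x < z ∧ f z < f x := by
  have h1 := hasDerivAt_iff_tendsto_slope.1 h
  have h2 : ∀ᶠ z in 𝓝[≠] x, slope f x z < 0 := h1.eventually (gt_mem_nhds hf)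
  have h3 : ∀ᶠ z in 𝓝[>] x, slope f x z < 0 :=
    h2.filter_mono (nhdsWithin_mono _ (fun z hz => ne_of_gt hz))
  obtain ⟨z, hz1, hz2⟩ := (h3.and self_mem_nhdsWithin).exists
  refine ⟨z, hz2, ?_⟩
  rw [slope_def_field, div_neg_iff] at hz1
  have hz3 : x < z := hz2
  rcases hz1 with ⟨_, h5⟩ | ⟨h4, h5⟩ <;> linarith

theorem exists_left {f : ℝ → ℝ} {f' x b : ℝ} (h : HasDerivAt f f' x) (hf : 0 < f') (hb : b < x) :
    ∃ z, b < z ∧ z < x ∧ f z < f x := by
  have h1 := hasDerivAt_iff_tendsto_slope.1 h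
  have h2 : ∀ᶠ z in 𝓝[≠] x, 0 < slope f x z := h1.eventually (lt_mem_nhds hf)
  have h3 : ∀ᶠ z in 𝓝[<] x, 0 < slope f x z :=
    h2.filter_mono (nhdsWithin_mono _ (fun z hz => ne_of_lt hz))
  have h4 : ∀ᶠ z in 𝓝[<] x, z ∈ Set.Ioo b x := Ioo_mem_nhdsLT hb
  obtain ⟨z, hz1, hz2⟩ := (h3.and h4).exists
  refine ⟨z, hz2.1, hz2.2, ?_⟩
  rw [slope_def_field, div_pos_iff] at hz1
  have := hz2.2
  rcases hz1 with ⟨_, h5⟩ | ⟨h4, h5⟩ <;> linarith

theorem tilt {x z : ℝ} (hx : 1 < x) (hz : 1 < z) (N m : ℕ) :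
    P 0 N m 0 * yy x ^ (2 * m) ≤ ll x ^ N *
      Real.exp (N * (Real.log (ll z) - Real.log (ll x)) -
        2 * m * (Real.log (yy z) - Real.log (yy x))) := by
  have h := up0 hz N m
  have hl := ll_gt hx
  have hl' := ll_gt hz
  have hy := yy_pos hx
  have hy' := yy_pos hz
  have e1 : ll z ^ N = ll x ^ N * Real.exp (N * (Real.log (ll z) - Real.log (ll x))) := by
    rw [Real.exp_nat_mul, ← mul_pow, Real.exp_sub, Real.exp_log (by linarith),
      Real.exp_log (by linarith)]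
    congr 1
    have : ll x ≠ 0 := by linarith
    field_simp
  have e2 : yy z ^ (2 * m) = yy x ^ (2 * m) *
      Real.exp (2 * m * (Real.log (yy z) - Real.log (yy x))) := by
    have : (2 : ℝ) * m = ((2 * m : ℕ) : ℝ) := by push_cast; ring
    rw [this, Real.exp_nat_mul, ← mul_pow, Real.exp_sub, Real.exp_log hy', Real.exp_log hy]
    congr 1
    field_simp
  rw [e1, e2] at h
  rw [Real.exp_sub, ← mul_div_assoc, le_div_iff₀ (Real.exp_pos _)]
  linarith [h]

theorem yy_mono {x z : ℝ} (hx : 1 < x) (hz : x < z) : yy x < yy z := by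
  unfold yy
  have : 1 / z < 1 / x := one_div_lt_one_div_of_lt (by linarith) hz
  linarith

theorem chernoff {x α δ : ℝ} (hx : 1 < x)
    (hα : α * ((2 * x ^ 2 - 1) * (x ^ 2 + 1)) = 2 * x ^ 2 * (x ^ 2 - 1)) (hδ : 0 < δ) :
    ∃ c, 0 < c ∧ ∀ N m : ℕ, ((α + δ) * N ≤ m ∨ (m : ℝ) ≤ (α - δ) * N) →
      P 0 N m 0 * yy x ^ (2 * m) ≤ ll x ^ N * Real.exp (-c * N) := by
  have hx0 : x ≠ 0 := by linarith
  have hl := ll_gt hx
  have hy := yy_pos hx
  have hder : ∀ b : ℝ, 4 * x / ll x - 2 * (α + b) * ((1 + 1 / x ^ 2) / yy x) =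
      - (2 * b * ((1 + 1 / x ^ 2) / yy x)) := by
    intro b
    have h1 : 4 * x / ll x = 2 * α * ((1 + 1 / x ^ 2) / yy x) := by
      unfold ll yy
      have h2 : 2 * x ^ 2 - 1 ≠ 0 := by have := hl; unfold ll at this; linarith
      have h3 : x ^ 2 - 1 ≠ 0 := by nlinarith
      have h4 : x - 1 / x = (x ^ 2 - 1) / x := by field_simp
      have h5 : (1 + 1 / x ^ 2) / ((x ^ 2 - 1) / x) = (x ^ 2 + 1) / (x * (x ^ 2 - 1)) := by
        field_simp
      rw [h4, h5, ← mul_div_assoc, div_eq_div_iff h2 (mul_ne_zero hx0 h3)]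
      linear_combination (-2) * hα
    rw [h1]; ring
  have hpos : 0 < (1 + 1 / x ^ 2) / yy x := by positivity
  obtain ⟨z1, hz1, hf1⟩ := exists_right (hasDerivAt_phi (α + δ) hx)
    (by rw [hder δ]; have := mul_pos (mul_pos two_pos hδ) hpos; linarith)
  obtain ⟨z2, hz2, hz2', hf2⟩ := exists_left (hasDerivAt_phi (α + (-δ)) hx)
    (by rw [hder (-δ)]; have := mul_pos (mul_pos two_pos hδ) hpos; linarith) hx
  set G := Real.log (ll x) with hG
  set H := Real.log (yy x) with hH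
  set G1 := Real.log (ll z1) with hG1
  set H1 := Real.log (yy z1) with hH1
  set G2 := Real.log (ll z2) with hG2
  set H2 := Real.log (yy z2) with hH2
  have hH1' : H < H1 := Real.log_lt_log hy (yy_mono hx hz1)
  have hH2' : H2 < H := Real.log_lt_log (yy_pos hz2) (yy_mono hz2 hz2')
  set c1 := (G - 2 * (α + δ) * H) - (G1 - 2 * (α + δ) * H1) with hc1
  set c2 := (G - 2 * (α + (-δ)) * H) - (G2 - 2 * (α + (-δ)) * H2) with hc2
  have hc1' : 0 < c1 := by linarith
  have hc2' : 0 < c2 := by linarith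
  refine ⟨min c1 c2, lt_min hc1' hc2', ?_⟩
  intro N m hm
  have hN : (0 : ℝ) ≤ N := Nat.cast_nonneg N
  have hlN : 0 ≤ ll x ^ N := by positivity
  rcases hm with hm | hm
  · have h1 := tilt hx (hx.trans hz1) N m
    refine h1.trans (mul_le_mul_of_nonneg_left (Real.exp_le_exp.2 ?_) hlN)
    have h2 : min c1 c2 * N ≤ c1 * N := mul_le_mul_of_nonneg_right (min_le_left _ _) hN
    have h3 : (α + δ) * N * (H1 - H) ≤ m * (H1 - H) := mul_le_mul_of_nonneg_right hm (by linarith)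
    rw [← hG1, ← hG, ← hH1, ← hH]
    have h4 : c1 * N = -(N * (G1 - G)) + 2 * ((α + δ) * N * (H1 - H)) := by rw [hc1]; ring
    linarith
  · have h1 := tilt hx hz2 N m
    refine h1.trans (mul_le_mul_of_nonneg_left (Real.exp_le_exp.2 ?_) hlN)
    have h2 : min c1 c2 * N ≤ c2 * N := mul_le_mul_of_nonneg_right (min_le_right _ _) hN
    have h3 : m * (H - H2) ≤ (α - δ) * N * (H - H2) := mul_le_mul_of_nonneg_right hm (by linarith)
    rw [← hG2, ← hG, ← hH2, ← hH]
    have h4 : c2 * N = -(N * (G2 - G)) - 2 * ((α - δ) * N * (H - H2)) := by rw [hc2]; ring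
    linarith

/-! ### lower bound for the sum -/

theorem U_exp {x η : ℝ} (hx : 1 < x) (hη : 0 < η) :
    ∃ c, 0 < c ∧ ∃ K : ℕ, ∀ N ≥ K, c * ll x ^ N * Real.exp (-η * N) ≤ U (yy x) N 0 := by
  have hx0 : 0 < x := by linarith
  have hl := ll_gt hx
  have hy := yy_pos hx
  set r := 1 / x with hrdef
  have hr0 : 0 < r := by positivity
  have hr1 : r < 1 := by rw [hrdef, div_lt_one hx0]; exact hx
  have hyr : yy x = 1 / r - r := by rw [hrdef]; unfold yy; field_simp
  have hlr : ll x = 2 / r ^ 2 - 1 := by rw [hrdef]; unfold ll; field_simp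
  set l := ll x * Real.exp (-η) with hldef
  have hl0 : 0 < l := mul_pos (by linarith) (Real.exp_pos _)
  have hll : l < ll x := by
    have : Real.exp (-η) < 1 := by rw [Real.exp_lt_one_iff]; linarith
    rw [hldef]
    nlinarith
  have hq : Tendsto (fun K : ℕ => (r ^ 2) ^ K) atTop (𝓝 0) :=
    tendsto_pow_atTop_nhds_zero_of_lt_one (by positivity) (by nlinarith)
  have hlim : Tendsto (fun K : ℕ => ll x - 2 * yy x ^ 2 * (r ^ 2) ^ K / (1 - (r ^ 2) ^ K)) atTop
      (𝓝 (ll x - 2 * yy x ^ 2 * 0 / (1 - 0))) := by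
    refine Tendsto.sub tendsto_const_nhds (Tendsto.div ?_ ?_ (by norm_num))
    · exact Tendsto.const_mul _ hq
    · exact Tendsto.sub tendsto_const_nhds hq
  rw [mul_zero, zero_div, sub_zero] at hlim
  obtain ⟨K, hK, hK1⟩ := ((hlim.eventually (lt_mem_nhds hll)).and (eventually_gt_atTop 0)).exists
  set w := min 1 (yy x) with hw
  have hw0 : 0 < w := lt_min one_pos hy
  have hKb : l ≤ 2 / r ^ 2 - 1 - 2 * yy x ^ 2 * r ^ (2 * K) / (1 - r ^ (2 * K)) := by
    rw [← hlr, pow_mul]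
    exact hK.le
  have hmain := U_lower hr0 hr1 hyr hK1 hl0.le hw0 (min_le_left _ _) (min_le_right _ _) hKb
  have hgs : 0 < gs r K 0 := by
    unfold gs
    have h1 : (0 : ℤ).natAbs = 0 := rfl
    rw [h1, if_pos hK1, pow_zero]
    have : r ^ (2 * K - 0) < 1 := pow_lt_one₀ hr0.le hr1 (by omega)
    linarith
  refine ⟨w ^ K * gs r K 0 / l ^ K, by positivity, K, ?_⟩
  intro N hN
  obtain ⟨n, rfl⟩ := Nat.exists_eq_add_of_le hN
  have h1 := hmain n 0
  have h2 : ll x ^ (K + n) * Real.exp (-η * ((K + n : ℕ) : ℝ)) = l ^ (K + n) := by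
    rw [hldef, mul_pow]
    congr 1
    rw [← Real.exp_nat_mul]
    congr 1
    ring
  have h3 : w ^ K * gs r K 0 / l ^ K * ll x ^ (K + n) * Real.exp (-η * ((K + n : ℕ) : ℝ)) =
      w ^ K * l ^ n * gs r K 0 := by
    rw [mul_assoc, h2, pow_add]
    field_simp
  rw [h3]
  exact h1

/-! ### monotonicity -/

theorem P_mono1 (N : ℕ) (m : ℤ) : P 0 N m 0 ≤ P 0 (N + 1) m 0 := by
  rw [P_succ]
  simp only [if_true]
  have h1 := P_nonneg (ε := 0) zero_le_one N (m - 1) 0
  have h2 := P_nonneg (ε := 0) zero_le_one N (m - 1) (0 + 1)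
  have h3 := P_nonneg (ε := 0) zero_le_one N m (0 - 1)
  linarith

theorem P_mono2 (N : ℕ) (m : ℤ) : P 0 N m 0 ≤ P 0 (N + 1) (m + 1) 0 := by
  rw [P_succ]
  simp only [if_true]
  rw [show m + 1 - 1 = m by ring]
  have h0 := P_nonneg (ε := 0) zero_le_one N m 0
  have h1 := P_nonneg (ε := 0) zero_le_one N (m + 1) 0
  have h2 := P_nonneg (ε := 0) zero_le_one N m (0 + 1)
  have h3 := P_nonneg (ε := 0) zero_le_one N (m + 1) (0 - 1)
  linarith

theorem P_mono (N m p j : ℕ) : P 0 N m 0 ≤ P 0 (N + p + j) (m + p : ℕ) 0 := by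
  have h1 : ∀ p : ℕ, P 0 N m 0 ≤ P 0 (N + p) (m + p : ℕ) 0 := by
    intro p
    induction p with
    | zero => simp
    | succ p ih =>
      have := P_mono2 (N + p) (m + p : ℕ)
      have e : ((m + (p + 1) : ℕ) : ℤ) = ((m + p : ℕ) : ℤ) + 1 := by push_cast; ring
      rw [e, ← add_assoc]
      linarith
  induction j with
  | zero => exact h1 p
  | succ j ih =>
    have := P_mono1 (N + p + j) (m + p : ℕ)
    rw [← add_assoc]
    linarith

theorem tendsto_lin_exp {a : ℝ} (ha : 0 < a) :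
    Tendsto (fun n : ℕ => ((n : ℝ) + 1) * Real.exp (-a * n)) atTop (𝓝 0) := by
  have h1 : Real.exp (-a) < 1 := by rw [Real.exp_lt_one_iff]; linarith
  have h2 := tendsto_self_mul_const_pow_of_lt_one (Real.exp_pos (-a)).le h1
  have h3 := tendsto_pow_atTop_nhds_zero_of_lt_one (Real.exp_pos (-a)).le h1
  have h4 := h2.add h3
  rw [add_zero] at h4
  refine h4.congr fun n => ?_
  rw [← Real.exp_nat_mul, add_mul, one_mul]
  congr 2 <;> ring_nf

theorem lower_chain {x η η' c : ℝ} {N M n q m p : ℕ} (hx : 1 < x) (hη : 0 < η)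
    (hp : M = m + p) (hpq : p ≤ q) (hn : N = q + n)
    (hm' : c * ll x ^ n * Real.exp (-η' * n) ≤ ((n : ℝ) + 1) * (P 0 n m 0 * yy x ^ (2 * m)))
    (hη'2 : η' ≤ η / 4)
    (hBq : (Real.log (ll x) + 2 * |Real.log (yy x)|) * q ≤
      η / 4 * N + (Real.log (ll x) + 2 * |Real.log (yy x)|))
    (hfin : ((N : ℝ) + 1) * Real.exp (-(η / 4) * N) ≤
      c * Real.exp (-(Real.log (ll x) + 2 * |Real.log (yy x)|))) :
    ll x ^ N * Real.exp (-η * N) ≤ P 0 N M 0 * yy x ^ (2 * M) := by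
  have hl := ll_gt hx
  have hy := yy_pos hx
  have hNr : (N : ℝ) = q + n := by rw [hn]; push_cast; ring
  have hn0 : (0 : ℝ) ≤ n := Nat.cast_nonneg n
  have hnN : (n : ℝ) ≤ N := by rw [hNr]; have : (0 : ℝ) ≤ q := Nat.cast_nonneg q; linarith
  have hc : 0 < c := by
    by_contra hcon
    push Not at hcon
    have h1 : c * Real.exp (-(Real.log (ll x) + 2 * |Real.log (yy x)|)) ≤ 0 :=
      mul_nonpos_of_nonpos_of_nonneg hcon (Real.exp_pos _).le
    have h2 : 0 < ((N : ℝ) + 1) * Real.exp (-(η / 4) * N) := by positivity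
    linarith
  obtain ⟨j, hj⟩ := Nat.exists_eq_add_of_le hpq
  have hPP : P 0 n m 0 ≤ P 0 N M 0 := by
    have h1 := P_mono n m p j
    have e1 : n + p + j = N := by omega
    rw [e1, ← hp] at h1
    exact h1
  have hyp : Real.exp (-(2 * |Real.log (yy x)|) * q) ≤ yy x ^ (2 * p) := by
    have e1 : yy x ^ (2 * p) = Real.exp (((2 * p : ℕ) : ℝ) * Real.log (yy x)) := by
      rw [Real.exp_nat_mul, Real.exp_log hy]
    rw [e1]
    apply Real.exp_le_exp.2
    push_cast
    have h1 : (p : ℝ) ≤ q := by exact_mod_cast hpq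
    have h2 : -|Real.log (yy x)| ≤ Real.log (yy x) := neg_abs_le _
    have h3 : 0 ≤ |Real.log (yy x)| := abs_nonneg _
    have h4 : (0 : ℝ) ≤ p := Nat.cast_nonneg p
    nlinarith
  have hlq : ll x ^ N = ll x ^ n * Real.exp (Real.log (ll x) * q) := by
    rw [hn, pow_add, mul_comm (Real.log (ll x)), Real.exp_nat_mul, Real.exp_log (by linarith)]
    ring
  have hyM : yy x ^ (2 * M) = yy x ^ (2 * m) * yy x ^ (2 * p) := by
    rw [hp, mul_add, pow_add]
  have hη'n : η' * n ≤ η / 4 * N := by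
    calc η' * n ≤ η / 4 * n := mul_le_mul_of_nonneg_right hη'2 hn0
      _ ≤ η / 4 * N := mul_le_mul_of_nonneg_left hnN (by positivity)
  have s1 : P 0 n m 0 * yy x ^ (2 * m) * yy x ^ (2 * p) ≤ P 0 N M 0 * yy x ^ (2 * M) := by
    rw [hyM, mul_assoc]
    exact mul_le_mul_of_nonneg_right hPP (by positivity)
  refine le_trans ?_ s1
  have hD0 : 0 ≤ P 0 n m 0 * yy x ^ (2 * m) := by
    have := P_nonneg (ε := 0) zero_le_one n m 0
    positivity
  generalize P 0 n m 0 * yy x ^ (2 * m) = D at *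
  generalize |Real.log (yy x)| = A at *
  generalize Real.log (ll x) = L at *
  have hlam : 0 < ll x ^ n := by positivity
  generalize ll x ^ n = T at *
  have s2 : D * Real.exp (-(2 * A) * q) ≤ D * yy x ^ (2 * p) :=
    mul_le_mul_of_nonneg_left hyp hD0
  refine le_trans ?_ s2
  rw [hlq]
  have s3 : c * T * Real.exp (-η' * n) ≤ ((N : ℝ) + 1) * D :=
    hm'.trans (mul_le_mul_of_nonneg_right (by linarith) hD0)
  have hN1 : (0 : ℝ) < (N : ℝ) + 1 := by positivity
  have t1 : ((N : ℝ) + 1) * (T * Real.exp (L * q) * Real.exp (-η * N)) =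
      (((N : ℝ) + 1) * Real.exp (-(η / 4) * N)) *
        (T * Real.exp (L * q + -(3 * η / 4) * N)) := by
    have : Real.exp (L * q) * Real.exp (-η * N) =
        Real.exp (-(η / 4) * N) * Real.exp (L * q + -(3 * η / 4) * N) := by
      rw [← Real.exp_add, ← Real.exp_add]; congr 1; ring
    rw [mul_assoc T, this]; ring
  have t2 : (((N : ℝ) + 1) * Real.exp (-(η / 4) * N)) *
        (T * Real.exp (L * q + -(3 * η / 4) * N)) ≤
      (c * Real.exp (-(L + 2 * A))) * (T * Real.exp (L * q + -(3 * η / 4) * N)) :=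
    mul_le_mul_of_nonneg_right hfin (by positivity)
  have t3 : (c * Real.exp (-(L + 2 * A))) * (T * Real.exp (L * q + -(3 * η / 4) * N)) =
      c * T * Real.exp (-(L + 2 * A) + (L * q + -(3 * η / 4) * N)) := by
    rw [Real.exp_add (-(L + 2 * A))]; ring
  have t4 : c * T * Real.exp (-(L + 2 * A) + (L * q + -(3 * η / 4) * N)) ≤
      c * T * Real.exp (-η' * n + -(2 * A) * q) := by
    refine mul_le_mul_of_nonneg_left (Real.exp_le_exp.2 ?_) (by positivity)
    have t8 : 0 ≤ η * N := by positivity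
    linarith
  have t5 : c * T * Real.exp (-η' * n + -(2 * A) * q) =
      (c * T * Real.exp (-η' * n)) * Real.exp (-(2 * A) * q) := by
    rw [Real.exp_add]; ring
  have t6 : (c * T * Real.exp (-η' * n)) * Real.exp (-(2 * A) * q) ≤
      (((N : ℝ) + 1) * D) * Real.exp (-(2 * A) * q) :=
    mul_le_mul_of_nonneg_right s3 (Real.exp_pos _).le
  have t7 : ((N : ℝ) + 1) * (T * Real.exp (L * q) * Real.exp (-η * N)) ≤
      ((N : ℝ) + 1) * (D * Real.exp (-(2 * A) * q)) := by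
    rw [t1]
    refine t2.trans ?_
    rw [t3]
    refine t4.trans ?_
    rw [t5]
    refine t6.trans (le_of_eq ?_)
    ring
  exact le_of_mul_le_mul_left t7 hN1

/-! ### lower bound at every density close to `α` -/

theorem lower {x α η : ℝ} (hx : 1 < x)
    (hα : α * ((2 * x ^ 2 - 1) * (x ^ 2 + 1)) = 2 * x ^ 2 * (x ^ 2 - 1)) (hα0 : 0 < α)
    (hα1 : α < 1) (hη : 0 < η) :
    ∃ δ, 0 < δ ∧ ∃ N₀ : ℕ, ∀ N ≥ N₀, ∀ M : ℕ, |(M : ℝ) - α * N| ≤ δ * N →
      ll x ^ N * Real.exp (-η * N) ≤ P 0 N M 0 * yy x ^ (2 * M) := by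
  have hl := ll_gt hx
  have hy := yy_pos hx
  set B := Real.log (ll x) + 2 * |Real.log (yy x)| with hB
  have hlog : 0 < Real.log (ll x) := Real.log_pos hl
  have hB0 : 0 < B := by have := abs_nonneg (Real.log (yy x)); linarith
  set ρ := min (η / (4 * B)) (1 / 2) with hρ
  have hρ0 : 0 < ρ := lt_min (by positivity) (by norm_num)
  have hρ1 : ρ ≤ 1 / 2 := min_le_right _ _
  have hρ2 : B * ρ ≤ η / 4 := by
    have : ρ ≤ η / (4 * B) := min_le_left _ _
    calc B * ρ ≤ B * (η / (4 * B)) := mul_le_mul_of_nonneg_left this hB0.le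
      _ = η / 4 := by field_simp
  set β := min α (1 - α) with hβ
  have hβ0 : 0 < β := lt_min hα0 (by linarith)
  have hβ1 : β ≤ α := min_le_left _ _
  have hβ2 : β ≤ 1 - α := min_le_right _ _
  set δ := ρ * β / 2 with hδ
  have hδ0 : 0 < δ := by positivity
  obtain ⟨c₁, hc₁, hch⟩ := chernoff hx hα hδ0
  set η' := min (c₁ / 2) (η / 4) with hη'
  have hη'0 : 0 < η' := lt_min (by positivity) (by positivity)
  have hη'1 : η' ≤ c₁ / 2 := min_le_left _ _
  have hη'2 : η' ≤ η / 4 := min_le_right _ _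
  obtain ⟨c, hc, K, hU⟩ := U_exp hx hη'0
  have hA : ∀ᶠ n : ℕ in atTop, ((n : ℝ) + 1) * Real.exp (-(c₁ - η') * n) < c :=
    (tendsto_lin_exp (a := c₁ - η') (by linarith)).eventually (gt_mem_nhds hc)
  have hA2 : ∀ᶠ n : ℕ in atTop, ((n : ℝ) + 1) * Real.exp (-(η / 4) * n) < c * Real.exp (-B) :=
    (tendsto_lin_exp (a := η / 4) (by positivity)).eventually
      (gt_mem_nhds (mul_pos hc (Real.exp_pos _)))
  obtain ⟨N₁, hN₁⟩ := eventually_atTop.1 (hA.and (eventually_ge_atTop K))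
  obtain ⟨N₂, hN₂⟩ := eventually_atTop.1 hA2
  refine ⟨δ, hδ0, max N₂ (2 * N₁ + 4), ?_⟩
  intro N hN M hM
  have hNN₂ : N₂ ≤ N := (le_max_left _ _).trans hN
  have hNN₁ : 2 * N₁ + 4 ≤ N := (le_max_right _ _).trans hN
  have hN0 : (0 : ℝ) < N := by
    have : 0 < N := by omega
    exact_mod_cast this
  set q := ⌈ρ * N⌉₊ with hq
  have hq1 : ρ * N ≤ q := Nat.le_ceil _
  have hq2 : (q : ℝ) < ρ * N + 1 := Nat.ceil_lt_add_one (by positivity)
  have hqN : q + N₁ ≤ N := by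
    have h0 : ρ * N ≤ 1 / 2 * N := mul_le_mul_of_nonneg_right hρ1 hN0.le
    have h1 : (q : ℝ) < N / 2 + 1 := by linarith
    have h2 : (2 * (N₁ : ℝ) + 4) ≤ N := by exact_mod_cast hNN₁
    have h3 : (q : ℝ) + N₁ < N + 1 := by linarith
    have h4 : q + N₁ < N + 1 := by exact_mod_cast h3
    omega
  obtain ⟨n, hn⟩ := Nat.exists_eq_add_of_le (show q ≤ N by omega)
  have hnN₁ : N₁ ≤ n := by omega
  obtain ⟨hA', hnK⟩ := hN₁ n hnN₁
  have hNr : (N : ℝ) = q + n := by rw [hn]; push_cast; ring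
  have hn0 : (0 : ℝ) ≤ n := Nat.cast_nonneg n
  have hUn := hU n hnK
  -- the best `m`
  have hex : ∃ m ∈ range (n + 1), U (yy x) n 0 / (n + 1) ≤ P 0 n m 0 * yy x ^ (2 * m) := by
    apply exists_le_of_sum_le (nonempty_range_iff.2 (by omega))
    rw [sum_const, card_range, nsmul_eq_mul, ← U_eq hy]
    push_cast
    rw [mul_div_cancel₀ _ (by positivity)]
    refine le_of_eq (sum_congr rfl fun m _ => ?_)
    rw [zpow_even]
  obtain ⟨m, -, hm⟩ := hex
  set D := P 0 n m 0 * yy x ^ (2 * m) with hD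
  have hm' : c * ll x ^ n * Real.exp (-η' * n) ≤ ((n : ℝ) + 1) * D := by
    rw [div_le_iff₀ (by positivity)] at hm
    linarith
  have hlt : ll x ^ n * Real.exp (-c₁ * n) < D := by
    by_contra hcon
    push Not at hcon
    have h1 : c * ll x ^ n * Real.exp (-η' * n) ≤
        ((n : ℝ) + 1) * (ll x ^ n * Real.exp (-c₁ * n)) :=
      hm'.trans (mul_le_mul_of_nonneg_left hcon (by positivity))
    have h2 : Real.exp (-c₁ * n) = Real.exp (-(c₁ - η') * n) * Real.exp (-η' * n) := by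
      rw [← Real.exp_add]; congr 1; ring
    rw [h2] at h1
    have h3 : 0 < ll x ^ n * Real.exp (-η' * n) := by positivity
    have h4 : c * (ll x ^ n * Real.exp (-η' * n)) ≤
        (((n : ℝ) + 1) * Real.exp (-(c₁ - η') * n)) * (ll x ^ n * Real.exp (-η' * n)) := by
      linarith
    have h5 := le_of_mul_le_mul_right h4 h3
    linarith
  have hmid : (α - δ) * n < m ∧ (m : ℝ) < (α + δ) * n := by
    constructor
    · by_contra hcon
      push Not at hcon
      have := hch n m (Or.inr hcon)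
      linarith
    · by_contra hcon
      push Not at hcon
      have := hch n m (Or.inl hcon)
      linarith
  obtain ⟨hM1, hM2⟩ := abs_le.1 hM
  have hδN : 2 * δ * N = ρ * N * β := by rw [hδ]; ring
  have hnN : (n : ℝ) ≤ N := by rw [hNr]; have : (0 : ℝ) ≤ q := Nat.cast_nonneg q; linarith
  have hδn : δ * n ≤ δ * N := mul_le_mul_of_nonneg_left hnN hδ0.le
  have hρN : 0 ≤ ρ * N := by positivity
  have hmM : m ≤ M := by
    have h1 : (m : ℝ) ≤ M := by
      have : ρ * N * β ≤ q * α := by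
        calc ρ * N * β ≤ ρ * N * α := mul_le_mul_of_nonneg_left hβ1 hρN
          _ ≤ q * α := mul_le_mul_of_nonneg_right hq1 hα0.le
      have h3 : α * N = α * q + α * n := by rw [hNr]; ring
      have h5 := hmid.2
      linarith
    exact_mod_cast h1
  obtain ⟨p, hp⟩ := Nat.exists_eq_add_of_le hmM
  have hpq : p ≤ q := by
    have h1 : (p : ℝ) ≤ q := by
      have h2 : ρ * N * β ≤ q * (1 - α) := by
        calc ρ * N * β ≤ ρ * N * (1 - α) := mul_le_mul_of_nonneg_left hβ2 hρN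
          _ ≤ q * (1 - α) := mul_le_mul_of_nonneg_right hq1 (by linarith)
      have h3 : α * N = α * q + α * n := by rw [hNr]; ring
      have h4 : (M : ℝ) = m + p := by rw [hp]; push_cast; ring
      have h5 := hmid.1
      linarith
    exact_mod_cast h1
  have hBq : B * q ≤ η / 4 * N + B := by
    have b1 : B * q ≤ B * (ρ * N + 1) := mul_le_mul_of_nonneg_left hq2.le hB0.le
    have b2 : B * ρ * N ≤ η / 4 * N := mul_le_mul_of_nonneg_right hρ2 hN0.le
    linarith
  exact lower_chain hx hη hp hpq hn hm' hη'2 hBq (hN₂ N hNN₂).le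

/-! ### the density -/

theorem exists_x {α : ℝ} (hα0 : 0 < α) (hα1 : α < 1) :
    ∃ x, 1 < x ∧ α * ((2 * x ^ 2 - 1) * (x ^ 2 + 1)) = 2 * x ^ 2 * (x ^ 2 - 1) := by
  have hcont : ContinuousOn (fun s : ℝ => 2 * s * (s - 1) - α * ((2 * s - 1) * (s + 1)))
      (Set.Icc 1 (4 / (1 - α))) := by fun_prop
  have h1a : 0 < 1 - α := by linarith
  have hle : (1 : ℝ) ≤ 4 / (1 - α) := by rw [le_div_iff₀ h1a]; linarith
  have h := intermediate_value_Icc hle hcont
  have h0 : (0 : ℝ) ∈ Set.Icc (2 * 1 * (1 - 1) - α * ((2 * 1 - 1) * (1 + 1)))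
      (2 * (4 / (1 - α)) * (4 / (1 - α) - 1) - α * ((2 * (4 / (1 - α)) - 1) * (4 / (1 - α) + 1))) := by
    constructor
    · linarith
    · set S := 4 / (1 - α) with hS
      have hSa : (1 - α) * S = 4 := by rw [hS]; field_simp
      have hS1 : 1 ≤ S := hle
      have : 2 * S * (S - 1) - α * ((2 * S - 1) * (S + 1)) =
          2 * ((1 - α) * S) * S - (2 + α) * S + α := by ring
      rw [this, hSa]
      nlinarith
  obtain ⟨s, hs, hs0⟩ := h h0
  simp only at hs0
  have hs1 : 1 < s := by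
    rcases hs.1.lt_or_eq with h2 | h2
    · exact h2
    · rw [← h2] at hs0
      nlinarith
  refine ⟨Real.sqrt s, ?_, ?_⟩
  · rw [Real.lt_sqrt (by norm_num)]; simpa using hs1
  · rw [Real.sq_sqrt (by linarith)]
    linarith

/-- the main comparison -/
theorem compare {α : ℝ} (hα0 : 0 < α) (hα1 : α < 1) :
    ∃ ε, 0 < ε ∧ ε ≤ 1 / 2 ∧ ∃ c, 0 < c ∧ ∃ δ, 0 < δ ∧ ∃ N₀ : ℕ, ∀ N ≥ N₀, ∀ M : ℕ,
      |(M : ℝ) - α * N| ≤ δ * N →
      0 < P 0 N M 0 ∧ P ε N M 0 ≤ P 0 N M 0 * Real.exp (-(ε ^ 2 + c) * N) := by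
  obtain ⟨x, hx, hα⟩ := exists_x hα0 hα1
  have hl := ll_gt hx
  have hy := yy_pos hx
  have hk := kap_pos hx
  have hx0 : 0 < x := by linarith
  have hr1 : 1 / x < 1 := by rw [div_lt_one hx0]; exact hx
  have hr0 : 0 < 1 / x := by positivity
  have hr2 : 0 < 1 - (1 / x) ^ 2 := by nlinarith
  set ε := min (1 / 2) (min (2 * (1 - (1 / x) ^ 2)) (kap x / (2 * ll x))) with hε
  have hε0 : 0 < ε := lt_min (by norm_num) (lt_min (by linarith) (by positivity))
  have hε1 : ε ≤ 1 / 2 := min_le_left _ _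
  have hε2 : ε ≤ 2 * (1 - (1 / x) ^ 2) := (min_le_right _ _).trans (min_le_left _ _)
  have hε3 : ε ≤ kap x / (2 * ll x) := (min_le_right _ _).trans (min_le_right _ _)
  set c := kap x * ε / (4 * ll x) with hc
  have hc0 : 0 < c := by positivity
  have hεc : ε ^ 2 ≤ 2 * c := by
    have : ε * ε ≤ ε * (kap x / (2 * ll x)) := mul_le_mul_of_nonneg_left hε3 hε0.le
    have e : 2 * c = ε * (kap x / (2 * ll x)) := by rw [hc]; field_simp; ring
    rw [e, pow_two]; exact this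
  obtain ⟨δ, hδ, N₀, hlow⟩ := lower hx hα hα0 hα1 hc0
  refine ⟨ε, hε0, hε1, c, hc0, δ, hδ, N₀, ?_⟩
  intro N hN M hM
  have h1 := hlow N hN M hM
  have h2 := upe hx hε0.le (by linarith) hε2 N M
  have hyM : 0 < yy x ^ (2 * M) := by positivity
  have hpos : 0 < ll x ^ N * Real.exp (-c * N) := by positivity
  have hP : 0 < P 0 N M 0 := by
    by_contra hcon
    push Not at hcon
    nlinarith
  refine ⟨hP, ?_⟩
  have h3 : (ll x - kap x * ε) ^ N ≤ ll x ^ N * Real.exp (-(4 * c) * N) := by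
    have h4 : 0 ≤ ll x - kap x * ε := by
      have k1 : kap x ≤ (1 - (1 / x) ^ 2) / 2 := min_le_left _ _
      nlinarith [sq_nonneg (1 / x)]
    have h5 : ll x - kap x * ε ≤ ll x * Real.exp (-(4 * c)) := by
      have h6 := Real.add_one_le_exp (-(4 * c))
      have h7 : ll x * (-(4 * c) + 1) ≤ ll x * Real.exp (-(4 * c)) :=
        mul_le_mul_of_nonneg_left h6 (by linarith)
      have h8 : ll x * (4 * c) = kap x * ε := by
        have : ll x ≠ 0 := by linarith
        rw [hc]; field_simp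
      linarith
    calc (ll x - kap x * ε) ^ N ≤ (ll x * Real.exp (-(4 * c))) ^ N := pow_le_pow_left₀ h4 h5 N
      _ = ll x ^ N * Real.exp (-(4 * c) * N) := by
        rw [mul_pow, ← Real.exp_nat_mul]; congr 2; ring
  have h4 : ll x ^ N * Real.exp (-(4 * c) * N) =
      ll x ^ N * Real.exp (-c * N) * Real.exp (-(3 * c) * N) := by
    rw [mul_assoc, ← Real.exp_add]; congr 2; ring
  have h5 : P ε N M 0 * yy x ^ (2 * M) ≤
      P 0 N M 0 * Real.exp (-(3 * c) * N) * yy x ^ (2 * M) := by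
    calc P ε N M 0 * yy x ^ (2 * M) ≤ (ll x - kap x * ε) ^ N := h2
      _ ≤ ll x ^ N * Real.exp (-c * N) * Real.exp (-(3 * c) * N) := by rw [← h4]; exact h3
      _ ≤ P 0 N M 0 * yy x ^ (2 * M) * Real.exp (-(3 * c) * N) :=
        mul_le_mul_of_nonneg_right h1 (Real.exp_pos _).le
      _ = _ := by ring
  have h6 := le_of_mul_le_mul_right h5 hyM
  refine h6.trans (mul_le_mul_of_nonneg_left (Real.exp_le_exp.2 ?_) hP.le)
  have hN0 : (0 : ℝ) ≤ N := Nat.cast_nonneg N
  nlinarith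

end Pool.Agent.R457.PL
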